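import Pool.Agent.Run7.h526.ZR.One

/-! # Equal blocks in terms of the digits -/

set_option autoImplicit false

namespace Pool.Agent.Run7.h526.ZR

open Finset Filter Topology

lemma agree_iff {b : ℕ} (hb : 0 < b) (x : ℝ) (k n n' : ℕ) :
    (∀ t < k, ⌊x * (b : ℝ) ^ (n + 1 + t)⌋ % (b : ℤ) = ⌊x * (b : ℝ) ^ (n' + 1 + t)⌋ % (b : ℤ)) ↔
      bl b (dg b x) n k = bl b (dg b x) n' k := by
  have e : ∀ n t : ℕ, ⌊x * (b : ℝ) ^ (n + 1 + t)⌋ % (b : ℤ) = (dg b x (n + t) : ℤ) := by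
    intro n t
    have e1 : n + 1 + t = (n + t) + 1 := by omega
    rw [e1, dg_floor hb]
  simp_rw [e, Int.natCast_inj]
  exact ⟨fun h => bl_congr h, fun h t ht => bl_inj hb (dg_lt hb x) h ht⟩

lemma agree_iff' {b r : ℕ} (hb : 0 < b) (α : Fin r → ℝ) (k n n' : ℕ) :
    (∀ j : Fin r, ∀ t < k,
      ⌊α j * (b : ℝ) ^ (n + 1 + t)⌋ % (b : ℤ) = ⌊α j * (b : ℝ) ^ (n' + 1 + t)⌋ % (b : ℤ)) ↔
      bl (b ^ r) (tc hb α) n k = bl (b ^ r) (tc hb α) n' k := by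
  have e : ∀ (j : Fin r) (n t : ℕ),
      ⌊α j * (b : ℝ) ^ (n + 1 + t)⌋ % (b : ℤ) = (dg b (α j) (n + t) : ℤ) := by
    intro j n t
    have e1 : n + 1 + t = (n + t) + 1 := by omega
    rw [e1, dg_floor hb]
  simp_rw [e, Int.natCast_inj]
  constructor
  · intro h
    exact bl_congr fun t ht => (tc_eq_iff hb α _ _).2 fun j => h j t ht
  · intro h j t ht
    exact (tc_eq_iff hb α _ _).1 (bl_inj (by positivity) (tc_lt hb α) h ht) j

/-- normal tuples in terms of the coded digits -/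
lemma normalT_iff {b r : ℕ} (hb : 0 < b) (α : Fin r → ℝ) : NormalT b α ↔ Good (b ^ r) (tc hb α) := by
  have hq : 0 < b ^ r := by positivity
  constructor
  · intro h m hm a ha
    obtain ⟨w, hw, hw2⟩ := bl_surj hq m a ha
    have h1 := h m hm (fun j t => finFunctionFinEquiv.symm (⟨w t, hw t⟩ : Fin (b ^ r)) j)
    have e : (((b ^ r : ℕ) : ℝ)) ^ m = (b : ℝ) ^ (m * r) := by
      push_cast
      rw [← pow_mul, mul_comm]
    rw [e]
    refine h1.congr fun N => ?_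
    congr 2
    rw [cntA_dg hb]
    refine num_congr (fun n => ?_) N
    have key : ∀ t : ℕ, tc hb α (n + t) = w t ↔ ∀ j, dg b (α j) (n + t) =
        (finFunctionFinEquiv.symm (⟨w t, hw t⟩ : Fin (b ^ r)) j : ℕ) := by
      intro t
      have h2 : tc hb α (n + t) = w t ↔ (finFunctionFinEquiv
          (fun j => (⟨dg b (α j) (n + t), dg_lt hb (α j) (n + t)⟩ : Fin b)) : Fin (b ^ r)) =
          (⟨w t, hw t⟩ : Fin (b ^ r)) := by
        rw [Fin.ext_iff]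
        rfl
      rw [h2, ← Equiv.eq_symm_apply, funext_iff]
      exact forall_congr' fun j => Fin.ext_iff
    rw [← hw2]
    constructor
    · intro h
      refine bl_congr fun t ht => ?_
      rw [zero_add]
      exact (key t).2 fun j => h j ⟨t, ht⟩
    · intro h j t
      have := bl_inj' hq (tc_lt hb α) hw h t.2
      rw [zero_add] at this
      exact (key t).1 this j
  · intro h
    refine normal_of_code hb fun m hm a ha => ?_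
    have e : (((b ^ r : ℕ) : ℝ)) ^ m = (b : ℝ) ^ (m * r) := by
      push_cast
      rw [← pow_mul, mul_comm]
    rw [← e]
    exact h m hm a ha

/-- the number of the `n < N` such that the `k` digits after the `n`-th one stand again at most `L`
places later, in all coordinates -/
noncomputable def soon {r : ℕ} (b : ℕ) (α : Fin r → ℝ) (k : ℕ) (L : ℝ) (N : ℕ) : ℕ := by
  classical
  exact ((range N).filter fun n : ℕ => ∃ j : ℕ, 1 ≤ j ∧ (j : ℝ) ≤ L ∧ ∀ i : Fin r, ∀ t < k,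
    ⌊α i * (b : ℝ) ^ (n + 1 + t)⌋ % (b : ℤ) = ⌊α i * (b : ℝ) ^ (n + j + 1 + t)⌋ % (b : ℤ)).card

lemma soon_eq {b r : ℕ} (hb : 0 < b) (α : Fin r → ℝ) (k : ℕ) (L : ℝ) (N : ℕ) :
    soon b α k L N = num (early (b ^ r) (tc hb α) k L) N := by
  classical
  unfold soon
  rw [num_of_filter]
  refine num_congr (fun n => ?_) N
  unfold early
  exact exists_congr fun j => and_congr_right fun _ => and_congr_right fun _ =>
    agree_iff' hb α k n (n + j)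

theorem soon_crit {b r : ℕ} (hb : 2 ≤ b) (hr : 1 ≤ r) (α : Fin r → ℝ) :
    NormalT b α ↔ ∀ ε : ℝ, 0 < ε → ∀ K : ℕ, ∃ k ≥ K, ∀ᶠ N : ℕ in atTop,
      (soon b α k (((b : ℝ) ^ r) ^ ((1 - ε) * k)) N : ℝ) ≤ ε * N := by
  have hb0 : 0 < b := by omega
  have hq : 2 ≤ b ^ r := hb.trans (Nat.le_self_pow (by omega) b)
  rw [normalT_iff hb0, early_crit hq (tc_lt hb0 α)]
  simp_rw [soon_eq hb0]
  push_cast
  rfl

theorem soon_normal {b r : ℕ} (hb : 2 ≤ b) (hr : 1 ≤ r) {α : Fin r → ℝ} (h : NormalT b α) {ε : ℝ}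
    (hε : 0 < ε) (k : ℕ) : ∀ᶠ N : ℕ in atTop,
      (soon b α k (((b : ℝ) ^ r) ^ ((1 - ε) * k)) N : ℝ) ≤ 2 * ((b : ℝ) ^ r) ^ (-(ε * k)) * N := by
  have hb0 : 0 < b := by omega
  have hq : 2 ≤ b ^ r := hb.trans (Nat.le_self_pow (by omega) b)
  have h1 := early_good hq (tc_lt hb0 α) ((normalT_iff hb0 α).1 h) (k := k) hε
  push_cast at h1
  simp_rw [soon_eq hb0]
  exact h1

theorem soon_gap {b r m : ℕ} (hb : 2 ≤ b) (hr : 1 ≤ r) (hm : 1 ≤ m) {τ : ℝ} (hτ : 0 < τ)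
    (hτ1 : τ ≤ 1) :
    ∃ k0 : ℕ, ∀ (α : Fin r → ℝ) (D : Fin r → Fin m → Fin b),
      (∃ᶠ N : ℕ in atTop, τ * N < |(cntA α D N : ℝ) - N / (b : ℝ) ^ (m * r)|) →
      ∀ k ≥ k0, ∃ᶠ N : ℕ in atTop, τ / 8 * N ≤
        soon b α k (((b : ℝ) ^ r) ^ ((1 - τ ^ 2 / (64 * m * (r * Real.log b))) * k)) N := by
  have hb0 : 0 < b := by omega
  have hq : 2 ≤ b ^ r := hb.trans (Nat.le_self_pow (by omega) b)
  obtain ⟨k0, hk0⟩ := early_core hq hm hτ hτ1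
  refine ⟨k0, fun α D hD k hk => ?_⟩
  obtain ⟨a, ha, hcount⟩ := cntA_code hb0 D
  have hB : Biased (b ^ r) (tc hb0 α) m a τ := by
    refine hD.mono fun N hN => ?_
    rw [hcount α N] at hN
    have e : (((b ^ r : ℕ) : ℝ)) ^ m = (b : ℝ) ^ (m * r) := by
      push_cast
      rw [← pow_mul, mul_comm]
    rw [e]
    exact hN
  have h1 := hk0 _ (tc_lt hb0 α) a ha hB k hk
  have e : gap (b ^ r) m τ = τ ^ 2 / (64 * m * (r * Real.log b)) := by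
    unfold gap
    push_cast
    rw [Real.log_pow]
  rw [e] at h1
  push_cast at h1
  simp_rw [soon_eq hb0]
  exact h1

/-- the same for one number -/
noncomputable def soon1 (b : ℕ) (x : ℝ) (k : ℕ) (L : ℝ) (N : ℕ) : ℕ := by
  classical
  exact ((range N).filter fun n : ℕ => ∃ j : ℕ, 1 ≤ j ∧ (j : ℝ) ≤ L ∧ ∀ t < k,
    ⌊x * (b : ℝ) ^ (n + 1 + t)⌋ % (b : ℤ) = ⌊x * (b : ℝ) ^ (n + j + 1 + t)⌋ % (b : ℤ)).card

lemma soon1_eq {b : ℕ} (hb : 0 < b) (x : ℝ) (k : ℕ) (L : ℝ) (N : ℕ) :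
    soon1 b x k L N = num (early b (dg b x) k L) N := by
  classical
  unfold soon1
  rw [num_of_filter]
  refine num_congr (fun n => ?_) N
  unfold early
  exact exists_congr fun j => and_congr_right fun _ => and_congr_right fun _ =>
    agree_iff hb x k n (n + j)

theorem soon1_crit {b : ℕ} (hb : 2 ≤ b) (x : ℝ) :
    Normal1 b x ↔ ∀ ε : ℝ, 0 < ε → ∀ K : ℕ, ∃ k ≥ K, ∀ᶠ N : ℕ in atTop,
      (soon1 b x k ((b : ℝ) ^ ((1 - ε) * k)) N : ℝ) ≤ ε * N := by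
  have hb0 : 0 < b := by omega
  rw [normal1_iff hb0, early_crit hb (dg_lt hb0 x)]
  simp_rw [soon1_eq hb0]

theorem soon1_normal {b : ℕ} (hb : 2 ≤ b) {x : ℝ} (h : Normal1 b x) {ε : ℝ}
    (hε : 0 < ε) (k : ℕ) : ∀ᶠ N : ℕ in atTop,
      (soon1 b x k ((b : ℝ) ^ ((1 - ε) * k)) N : ℝ) ≤ 2 * (b : ℝ) ^ (-(ε * k)) * N := by
  have hb0 : 0 < b := by omega
  simp_rw [soon1_eq hb0]
  exact early_good hb (dg_lt hb0 x) ((normal1_iff hb0 x).1 h) (k := k) hε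

theorem soon1_gap {b m : ℕ} (hb : 2 ≤ b) (hm : 1 ≤ m) {τ : ℝ} (hτ : 0 < τ) (hτ1 : τ ≤ 1) :
    ∃ k0 : ℕ, ∀ (x : ℝ) (w : Fin m → Fin b),
      (∃ᶠ N : ℕ in atTop, τ * N < |(occ1 x w N : ℝ) - N / (b : ℝ) ^ m|) →
      ∀ k ≥ k0, ∃ᶠ N : ℕ in atTop, τ / 8 * N ≤
        soon1 b x k ((b : ℝ) ^ ((1 - τ ^ 2 / (64 * m * Real.log b)) * k)) N := by
  have hb0 : 0 < b := by omega
  obtain ⟨k0, hk0⟩ := early_core hb hm hτ hτ1
  refine ⟨k0, fun x w hw k hk => ?_⟩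
  obtain ⟨a, ha, hcount⟩ := occ1_eq hb0 w
  have hB : Biased b (dg b x) m a τ := by
    refine hw.mono fun N hN => ?_
    rw [hcount] at hN
    exact hN
  simp_rw [soon1_eq hb0]
  exact hk0 _ (dg_lt hb0 x) a ha hB k hk

theorem soon1_not {b : ℕ} (hb : 2 ≤ b) {x : ℝ} (h : ¬ Normal1 b x) :
    ∃ c : ℝ, 0 < c ∧ ∃ k0 : ℕ, ∀ k ≥ k0, ∃ᶠ N : ℕ in atTop,
      c * N ≤ soon1 b x k ((b : ℝ) ^ ((1 - c) * k)) N := by
  have hb0 : 0 < b := by omega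
  have hb1 : (1 : ℝ) < b := by exact_mod_cast (by omega : 1 < b)
  rw [normal1_iff hb0] at h
  obtain ⟨m, hm, a, ha, τ, hτ, hτ1, hB⟩ := biased_of_not_good hb0 h
  obtain ⟨k0, hk0⟩ := early_core hb hm hτ hτ1
  have hg := gap_pos hb hm hτ
  refine ⟨min (gap b m τ) (τ / 8), by positivity, k0, fun k hk => ?_⟩
  refine (hk0 _ (dg_lt hb0 x) a ha hB k hk).mono fun N hN => ?_
  rw [soon1_eq hb0]
  have h1 : min (gap b m τ) (τ / 8) * (N : ℝ) ≤ τ / 8 * N :=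
    mul_le_mul_of_nonneg_right (min_le_right _ _) (Nat.cast_nonneg _)
  refine h1.trans (hN.trans ?_)
  have := num_mono (P := early b (dg b x) k ((b : ℝ) ^ ((1 - gap b m τ) * k)))
    (Q := early b (dg b x) k ((b : ℝ) ^ ((1 - min (gap b m τ) (τ / 8)) * k))) (fun n hn => by
      obtain ⟨j, h1, h2, h3⟩ := hn
      refine ⟨j, h1, h2.trans ?_, h3⟩
      refine Real.rpow_le_rpow_of_exponent_le hb1.le ?_
      have h4 := min_le_left (gap b m τ) (τ / 8)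
      exact mul_le_mul_of_nonneg_right (by linarith) (Nat.cast_nonneg _)) N
  exact_mod_cast this

/-- the number of the pairs of equal blocks -/
noncomputable def pairs (b : ℕ) (x : ℝ) (k N : ℕ) : ℕ :=
  ∑ j ∈ Icc 1 (b ^ k), ((range N).filter fun n : ℕ => ∀ t < k,
    ⌊x * (b : ℝ) ^ (n + 1 + t)⌋ % (b : ℤ) = ⌊x * (b : ℝ) ^ (n + j + 1 + t)⌋ % (b : ℤ)).card

lemma pairs_eq {b : ℕ} (hb : 0 < b) (x : ℝ) (k N : ℕ) :
    pairs b x k N = ∑ j ∈ Icc 1 (b ^ k), ret b (dg b x) k j N := by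
  unfold pairs ret
  refine sum_congr rfl fun j _ => ?_
  rw [num_of_filter]
  exact num_congr (fun n => agree_iff hb x k n (n + j)) N

theorem pairs_normal {b : ℕ} (hb : 2 ≤ b) {x : ℝ} (h : Normal1 b x) (k : ℕ) :
    Tendsto (fun N : ℕ => (pairs b x k N : ℝ) / N) atTop (𝓝 1) := by
  have hb0 : 0 < b := by omega
  simp_rw [pairs_eq hb0]
  exact pair_tendsto hb (dg_lt hb0 x) ((normal1_iff hb0 x).1 h) k

theorem pairs_gap {b m : ℕ} (hb : 2 ≤ b) (hm : 1 ≤ m) {τ : ℝ} (hτ : 0 < τ) (hτ1 : τ ≤ 1) :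
    ∃ k0 : ℕ, ∀ (x : ℝ) (w : Fin m → Fin b),
      (∃ᶠ N : ℕ in atTop, τ * N < |(occ1 x w N : ℝ) - N / (b : ℝ) ^ m|) →
      ∀ k ≥ k0, ∃ᶠ N : ℕ in atTop,
        (b : ℝ) ^ (τ ^ 2 / (64 * m * Real.log b) * k) * N ≤ pairs b x k N := by
  have hb0 : 0 < b := by omega
  obtain ⟨k0, hk0⟩ := rep_core hb hm hτ hτ1
  refine ⟨k0, fun x w hw k hk => ?_⟩
  obtain ⟨a, ha, hcount⟩ := occ1_eq hb0 w
  have hB : Biased b (dg b x) m a τ := by
    refine hw.mono fun N hN => ?_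
    rw [hcount] at hN
    exact hN
  simp_rw [pairs_eq hb0]
  exact hk0 _ (dg_lt hb0 x) a ha hB k hk

theorem pairs_crit {b : ℕ} (hb : 2 ≤ b) (x : ℝ)
    (h : ∀ ε : ℝ, 0 < ε → ∀ K : ℕ, ∃ k ≥ K, ∀ᶠ N : ℕ in atTop,
      (pairs b x k N : ℝ) ≤ (b : ℝ) ^ (ε * k) * N) : Normal1 b x := by
  have hb0 : 0 < b := by omega
  rw [normal1_iff hb0]
  refine pair_crit hb (dg_lt hb0 x) ?_
  simpa only [pairs_eq hb0] using h

theorem near_gap' {b m : ℕ} (hb : 2 ≤ b) (hm : 1 ≤ m) {τ : ℝ} (hτ : 0 < τ) (hτ1 : τ ≤ 1) :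
    ∃ k0 : ℕ, ∀ (x : ℝ) (w : Fin m → Fin b),
      (∃ᶠ N : ℕ in atTop, τ * N < |(occ1 x w N : ℝ) - N / (b : ℝ) ^ m|) →
      ∀ k ≥ k0, ∃ j : ℕ, 1 ≤ j ∧ j ≤ b ^ k ∧ ∃ᶠ N : ℕ in atTop,
        (b : ℝ) ^ (-((1 - τ ^ 2 / (64 * m * Real.log b)) * k)) * N ≤ near b k x ((b : ℤ) ^ j - 1) N := by
  obtain ⟨k0, hk0⟩ := near_gap hb hm hτ hτ1
  refine ⟨k0, fun x w hw k hk => ?_⟩
  obtain ⟨j, h1, h2, h3⟩ := hk0 x w hw k hk
  refine ⟨j, h1, h2, h3.mono fun N hN => hN.trans ?_⟩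
  exact_mod_cast ret_le_near hb x k j N

end Pool.Agent.Run7.h526.ZR
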