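import Pool.Agent.Run7.h526.ZR.Pig

/-! # Digits of real numbers and of tuples, translations -/

set_option autoImplicit false

namespace Pool.Agent.Run7.h526.ZR

open Finset Filter Topology

/-- the digit of `y` at the place `n + 1` -/
noncomputable def dg (b : ℕ) (y : ℝ) (n : ℕ) : ℕ := ⌊(b : ℝ) * Int.fract (y * (b : ℝ) ^ n)⌋₊

lemma dg_lt {b : ℕ} (hb : 0 < b) (y : ℝ) (n : ℕ) : dg b y n < b := by
  unfold dg
  have hbR : (0 : ℝ) < b := by exact_mod_cast hb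
  have h0 := Int.fract_nonneg (y * (b : ℝ) ^ n)
  have h1 := Int.fract_lt_one (y * (b : ℝ) ^ n)
  rw [Nat.floor_lt (by positivity)]
  nlinarith

lemma fract_mul_nat (z : ℝ) (b : ℕ) : Int.fract (z * b) = Int.fract (b * Int.fract z) := by
  have h : z * b = b * Int.fract z + ((b * ⌊z⌋ : ℤ) : ℝ) := by
    push_cast
    have := Int.floor_add_fract z
    linear_combination (b : ℝ) * (-this)
  rw [h, Int.fract_add_intCast]

lemma step (b : ℕ) (z : ℝ) : (b : ℝ) * Int.fract z = (⌊(b : ℝ) * Int.fract z⌋₊ : ℝ) + Int.fract (z * b) := by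
  have h0 : 0 ≤ (b : ℝ) * Int.fract z := mul_nonneg (Nat.cast_nonneg _) (Int.fract_nonneg _)
  rw [fract_mul_nat, natCast_floor_eq_intCast_floor h0]
  exact (Int.floor_add_fract _).symm

/-- the block of the digits is the integral part -/
lemma bl_dg_add (b : ℕ) (y : ℝ) (n k : ℕ) :
    (b : ℝ) ^ k * Int.fract (y * (b : ℝ) ^ n) =
      (bl b (dg b y) n k : ℝ) + Int.fract (y * (b : ℝ) ^ (n + k)) := by
  induction k with
  | zero => simp
  | succ k ih =>
    have h := step b (y * (b : ℝ) ^ (n + k))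
    have e : y * (b : ℝ) ^ (n + k) * b = y * (b : ℝ) ^ (n + (k + 1)) := by ring
    rw [e] at h
    have h2 : (dg b y (n + k) : ℝ) = (⌊(b : ℝ) * Int.fract (y * (b : ℝ) ^ (n + k))⌋₊ : ℝ) := rfl
    rw [bl_succ]
    push_cast
    rw [h2]
    linear_combination (b : ℝ) * ih + h

lemma bl_dg (b : ℕ) (y : ℝ) (n k : ℕ) :
    bl b (dg b y) n k = ⌊(b : ℝ) ^ k * Int.fract (y * (b : ℝ) ^ n)⌋₊ := by
  have h := bl_dg_add b y n k
  have h0 := Int.fract_nonneg (y * (b : ℝ) ^ (n + k))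
  have h1 := Int.fract_lt_one (y * (b : ℝ) ^ (n + k))
  symm
  rw [Nat.floor_eq_iff (mul_nonneg (by positivity) (Int.fract_nonneg _))]
  constructor <;> linarith

lemma dg_floor {b : ℕ} (hb : 0 < b) (y : ℝ) (n : ℕ) :
    ⌊y * (b : ℝ) ^ (n + 1)⌋ % (b : ℤ) = dg b y n := by
  have h := step b (y * (b : ℝ) ^ n)
  have e : y * (b : ℝ) ^ n * b = y * (b : ℝ) ^ (n + 1) := by ring
  rw [e] at h
  have h2 : (dg b y n : ℝ) = (⌊(b : ℝ) * Int.fract (y * (b : ℝ) ^ n)⌋₊ : ℝ) := rfl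
  have h3 : ⌊y * (b : ℝ) ^ (n + 1)⌋ = (dg b y n : ℤ) + b * ⌊y * (b : ℝ) ^ n⌋ := by
    rw [Int.floor_eq_iff]
    have h4 := Int.floor_add_fract (y * (b : ℝ) ^ n)
    have h5 := Int.fract_nonneg (y * (b : ℝ) ^ (n + 1))
    have h6 := Int.fract_lt_one (y * (b : ℝ) ^ (n + 1))
    push_cast
    rw [h2]
    have h7 : y * (b : ℝ) ^ (n + 1) = (⌊(b : ℝ) * Int.fract (y * (b : ℝ) ^ n)⌋₊ : ℝ) +
        b * ⌊y * (b : ℝ) ^ n⌋ + Int.fract (y * (b : ℝ) ^ (n + 1)) := by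
      linear_combination -e + h - (b : ℝ) * h4
    constructor <;> linarith
  rw [h3, Int.add_mul_emod_self_left]
  exact Int.emod_eq_of_lt (by positivity) (by exact_mod_cast dg_lt hb y n)

lemma bl_congr {q : ℕ} {d d' : ℕ → ℕ} {n n' k : ℕ} (h : ∀ i < k, d (n + i) = d' (n' + i)) :
    bl q d n k = bl q d' n' k := by
  induction k with
  | zero => rfl
  | succ k ih => rw [bl_succ, bl_succ, ih fun i hi => h i (by omega), h k (by omega)]

lemma bl_inj' {q : ℕ} {d d' : ℕ → ℕ} (hq : 0 < q) (hd : ∀ n, d n < q) (hd' : ∀ n, d' n < q)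
    {n n' k : ℕ} (h : bl q d n k = bl q d' n' k) {i : ℕ} (hi : i < k) : d (n + i) = d' (n' + i) := by
  have h1 : ∀ (d : ℕ → ℕ), (∀ n, d n < q) → ∀ n, d (n + i) = (bl q d n k / q ^ (k - (i + 1))) % q := by
    intro d hd n
    have e : k = (i + 1) + (k - (i + 1)) := by omega
    have h2 := bl_div hq hd n (i + 1) (k - (i + 1))
    rw [← e] at h2
    rw [h2, bl_succ, Nat.mul_add_mod, Nat.mod_eq_of_lt (hd _)]
  rw [h1 d hd, h1 d' hd', h]

/-- every number below `q ^ k` is the value of a word -/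
lemma bl_surj {q : ℕ} (hq : 0 < q) (k : ℕ) : ∀ c < q ^ k, ∃ w : ℕ → ℕ, (∀ i, w i < q) ∧
    bl q w 0 k = c := by
  induction k with
  | zero =>
    intro c hc
    refine ⟨fun _ => 0, fun _ => hq, ?_⟩
    simp at hc
    simp [hc]
  | succ k ih =>
    intro c hc
    obtain ⟨w, hw, hw2⟩ := ih (c / q) (by
      rw [Nat.div_lt_iff_lt_mul hq, ← pow_succ]; exact hc)
    refine ⟨fun i => if i < k then w i else c % q, fun i => ?_, ?_⟩
    · simp only
      split_ifs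
      · exact hw i
      · exact Nat.mod_lt _ hq
    · rw [bl_succ]
      have : bl q (fun i => if i < k then w i else c % q) 0 k = bl q w 0 k :=
        bl_congr fun i hi => by simp [hi]
      rw [this, hw2]
      simp only [zero_add, lt_irrefl, if_false]
      exact Nat.div_add_mod _ _

/-- the digits of the tuple `α` at the place `n + 1`, as one number below `b ^ r` -/
noncomputable def tc {b r : ℕ} (hb : 0 < b) (α : Fin r → ℝ) (n : ℕ) : ℕ :=
  (finFunctionFinEquiv fun j => (⟨dg b (α j) n, dg_lt hb (α j) n⟩ : Fin b) : Fin (b ^ r))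

lemma tc_lt {b r : ℕ} (hb : 0 < b) (α : Fin r → ℝ) (n : ℕ) : tc hb α n < b ^ r := Fin.is_lt _

lemma tc_eq_iff {b r : ℕ} (hb : 0 < b) (α : Fin r → ℝ) (n n' : ℕ) :
    tc hb α n = tc hb α n' ↔ ∀ j, dg b (α j) n = dg b (α j) n' := by
  unfold tc
  rw [← Fin.ext_iff, finFunctionFinEquiv.injective.eq_iff]
  constructor
  · intro h j
    have := congrFun h j
    exact congrArg Fin.val this
  · intro h
    funext j
    exact Fin.ext (h j)

open Classical in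
lemma num_pos {P : ℕ → Prop} {N : ℕ} (h : 0 < num P N) : ∃ n < N, P n := by
  rw [num_eq] at h
  obtain ⟨n, hn⟩ := card_pos.1 h
  exact ⟨n, mem_range.1 (mem_filter.1 hn).1, (mem_filter.1 hn).2⟩

/-- the translation which turns one block into another one -/
lemma target_run {b k : ℕ} (hb : 2 ≤ b) {W : ℕ} (hW : W < b ^ (k + 2)) {i : ℕ} (hi : i < k + 2)
    {U : ℕ} (hU : U < b ^ k) :
    ∃ p : ℕ, p < b ^ (k + 2) - 1 ∧ ∀ (y : ℝ) (n : ℕ),
      ⌊(b : ℝ) ^ (k + 2) * Int.fract (y * (b : ℝ) ^ n)⌋₊ = W → n % (k + 2) = i →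
      ⌊(b : ℝ) ^ k * Int.fract ((y + p / ((b : ℝ) ^ (k + 2) - 1)) * (b : ℝ) ^ n)⌋₊ = U := by
  have hbR : (2 : ℝ) ≤ b := by exact_mod_cast hb
  have hbk0 : (0 : ℝ) < (b : ℝ) ^ k := by positivity
  have hbK4 : 4 * b ^ k ≤ b ^ (k + 2) := by
    rw [pow_add, mul_comm]
    exact Nat.mul_le_mul_left _ (by nlinarith)
  have hbk1 : 1 ≤ b ^ k := Nat.one_le_pow _ _ (by omega)
  obtain ⟨K, hK⟩ : ∃ K, K = k + 2 := ⟨_, rfl⟩
  rw [← hK] at hW hi hbK4 ⊢
  obtain ⟨M, hM⟩ : ∃ M : ℕ, b ^ K = M + 1 := ⟨b ^ K - 1, by omega⟩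
  have hM3 : 3 ≤ M := by omega
  have hMR : (0 : ℝ) < M := by exact_mod_cast (by omega : 0 < M)
  have hM3R : (3 : ℝ) ≤ M := by exact_mod_cast hM3
  have hbM : (b : ℝ) ^ K = M + 1 := by exact_mod_cast hM
  have hbMZ : (b : ℤ) ^ K = M + 1 := by exact_mod_cast hM
  have hbK4R : 4 * (b : ℝ) ^ k ≤ M + 1 := by
    rw [← hbM]; exact_mod_cast hbK4
  -- the target
  set U' : ℤ := ⌈(U : ℝ) * M / (b : ℝ) ^ k⌉ with hU'
  have hU1 : (U : ℝ) * M / (b : ℝ) ^ k ≤ U' := Int.le_ceil _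
  have hU2 : (U' : ℝ) < (U : ℝ) * M / (b : ℝ) ^ k + 1 := Int.ceil_lt_add_one _
  set V : ℤ := U' - ((W - 1 : ℕ) : ℤ) with hV
  set p : ℤ := (V * (b : ℤ) ^ (K - i)) % M with hp
  have hp0 : 0 ≤ p := Int.emod_nonneg _ (by exact_mod_cast (by omega : M ≠ 0))
  have hp1 : p < M := Int.emod_lt_of_pos _ (by exact_mod_cast (by omega : 0 < M))
  refine ⟨p.toNat, ?_, ?_⟩
  · rw [hM, Nat.add_sub_cancel]
    exact (Int.toNat_lt hp0).2 hp1
  · intro y n hn hni
    have hpR : ((p.toNat : ℕ) : ℝ) = (p : ℝ) := by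
      exact_mod_cast Int.toNat_of_nonneg hp0
    rw [hpR, hbM, add_sub_cancel_right]
    -- the congruence
    have h1 : (b : ℤ) ^ K ≡ 1 [ZMOD M] := by
      rw [hbMZ]
      exact (Int.modEq_iff_dvd.2 ⟨-1, by ring⟩)
    have h2 : (b : ℤ) ^ n ≡ (b : ℤ) ^ i [ZMOD M] := by
      have e : n = K * (n / K) + i := by rw [← hni]; exact (Nat.div_add_mod n K).symm
      calc (b : ℤ) ^ n = ((b : ℤ) ^ K) ^ (n / K) * (b : ℤ) ^ i := by
            rw [← pow_mul, ← pow_add, ← e]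
        _ ≡ 1 ^ (n / K) * (b : ℤ) ^ i [ZMOD M] := (h1.pow _).mul_right _
        _ = _ := by rw [one_pow, one_mul]
    have h3 : p * (b : ℤ) ^ n ≡ V [ZMOD M] := by
      calc p * (b : ℤ) ^ n ≡ (V * (b : ℤ) ^ (K - i)) * (b : ℤ) ^ i [ZMOD M] :=
            (Int.mod_modEq _ _).mul h2
        _ = V * (b : ℤ) ^ K := by
            rw [mul_assoc, ← pow_add]; congr 2; omega
        _ ≡ V * 1 [ZMOD M] := h1.mul_left _
        _ = _ := mul_one _
    obtain ⟨z, hz⟩ := h3.symm.dvd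
    have hzR : (p : ℝ) * (b : ℝ) ^ n = V + M * z := by
      have : (p : ℤ) * (b : ℤ) ^ n = V + M * z := by linarith
      exact_mod_cast this
    set f := Int.fract (y * (b : ℝ) ^ n) with hf
    have hVR : (V : ℝ) = U' - ((W - 1 : ℕ) : ℝ) := by rw [hV]; push_cast; ring
    have h4 : (y + (p : ℝ) / M) * (b : ℝ) ^ n =
        (f - ((W - 1 : ℕ) : ℝ) / M + U' / M) + ((⌊y * (b : ℝ) ^ n⌋ + z : ℤ) : ℝ) := by
      have e1 := Int.floor_add_fract (y * (b : ℝ) ^ n)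
      rw [← hf] at e1
      have e2 : (p : ℝ) / M * (b : ℝ) ^ n = (U' - ((W - 1 : ℕ) : ℝ)) / M + z := by
        rw [div_mul_eq_mul_div, hzR, hVR]
        field_simp
      push_cast
      rw [add_mul, e2]
      linear_combination -e1
    rw [h4, Int.fract_add_intCast]
    have hf0 : 0 ≤ (b : ℝ) ^ K * f := by rw [hf]; exact mul_nonneg (by positivity) (Int.fract_nonneg _)
    rw [Nat.floor_eq_iff hf0, hbM] at hn
    have hWM : (W : ℝ) ≤ M := by
      have : W ≤ M := by omega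
      exact_mod_cast this
    have hMp : (0 : ℝ) < M + 1 := by linarith
    -- bounds of the difference
    have h5 : 0 ≤ f - ((W - 1 : ℕ) : ℝ) / M ∧ f - ((W - 1 : ℕ) : ℝ) / M < 2 / (M + 1) := by
      rcases Nat.eq_zero_or_pos W with hW0 | hW0
      · subst hW0
        simp only [Nat.zero_sub, Nat.cast_zero, zero_div, sub_zero]
        refine ⟨by rw [hf]; exact Int.fract_nonneg _, ?_⟩
        rw [lt_div_iff₀ hMp]
        have := hn.2
        push_cast at this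
        linarith
      · have e : ((W - 1 : ℕ) : ℝ) = W - 1 := by push_cast [Nat.cast_sub (by omega : 1 ≤ W)]; ring
        have hW1 : (1 : ℝ) ≤ W := by exact_mod_cast hW0
        rw [e]
        have hfl : (W : ℝ) / (M + 1) ≤ f := by rw [div_le_iff₀ hMp]; linarith [hn.1]
        have hfu : f < (W + 1 : ℝ) / (M + 1) := by rw [lt_div_iff₀ hMp]; linarith [hn.2]
        constructor
        · have : ((W : ℝ) - 1) / M ≤ W / (M + 1) := by
            rw [div_le_div_iff₀ hMR hMp]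
            nlinarith
          linarith
        · have : (W + 1 : ℝ) / (M + 1) ≤ 2 / (M + 1) + ((W : ℝ) - 1) / M := by
            have e2 : (W + 1 : ℝ) / (M + 1) - 2 / (M + 1) = ((W : ℝ) - 1) / (M + 1) := by ring
            have e3 : ((W : ℝ) - 1) / (M + 1) ≤ ((W : ℝ) - 1) / M :=
              div_le_div_of_nonneg_left (by linarith) hMR (by linarith)
            linarith
          linarith
    -- bounds of the target
    have h6 : (U : ℝ) / (b : ℝ) ^ k ≤ U' / M := by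
      rw [div_le_div_iff₀ hbk0 hMR]
      rw [div_le_iff₀ hbk0] at hU1
      exact hU1
    have h7 : (U' : ℝ) / M < (U : ℝ) / (b : ℝ) ^ k + 2 / (M + 1) := by
      have h8 : (U' : ℝ) / M < (U : ℝ) / (b : ℝ) ^ k + 1 / M := by
        rw [div_lt_iff₀ hMR]
        have e : ((U : ℝ) / (b : ℝ) ^ k + 1 / M) * M = (U : ℝ) * M / (b : ℝ) ^ k + 1 := by
          field_simp
        rw [e]
        exact hU2
      have h9 : (1 : ℝ) / M ≤ 2 / (M + 1) := by
        rw [div_le_div_iff₀ hMR hMp]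
        linarith
      linarith
    set g : ℝ := f - ((W - 1 : ℕ) : ℝ) / M + U' / M with hg
    have hg1 : (U : ℝ) / (b : ℝ) ^ k ≤ g := by rw [hg]; linarith [h5.1]
    have hg2 : g < ((U : ℝ) + 1) / (b : ℝ) ^ k := by
      have h10 : (4 : ℝ) / (M + 1) ≤ 1 / (b : ℝ) ^ k := by
        rw [div_le_div_iff₀ hMp hbk0]
        linarith
      have h11 : (2 : ℝ) / (M + 1) + 2 / (M + 1) = 4 / (M + 1) := by ring
      have h12 : ((U : ℝ) + 1) / (b : ℝ) ^ k = U / (b : ℝ) ^ k + 1 / (b : ℝ) ^ k := by ring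
      rw [hg, h12]
      linarith [h5.2]
    have hg0 : 0 ≤ g := le_trans (by positivity) hg1
    have hg3 : g < 1 := by
      refine hg2.trans_le ?_
      rw [div_le_one hbk0]
      exact_mod_cast hU
    rw [Int.fract_eq_self.2 ⟨hg0, hg3⟩, Nat.floor_eq_iff (by positivity)]
    rw [div_le_iff₀ hbk0] at hg1
    rw [lt_div_iff₀ hbk0] at hg2
    constructor <;> linarith

/-- **a translate of a biased tuple with any given block** -/
theorem translate_gap {b r : ℕ} (hb : 2 ≤ b) (hr : 1 ≤ r) {l : ℕ} (hl : 1 ≤ l) {τ : ℝ} (hτ : 0 < τ)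
    (hτ1 : τ ≤ 1) (hb0 : 0 < b) :
    ∃ k0 : ℕ, ∀ α : Fin r → ℝ, ∀ a < (b ^ r) ^ l, Biased (b ^ r) (tc hb0 α) l a τ →
      ∀ k ≥ k0, ∀ U : Fin r → ℕ, (∀ j, U j < b ^ k) →
      ∃ p : Fin r → ℕ, (∀ j, p j < b ^ (k + 2) - 1) ∧ ∃ᶠ N : ℕ in atTop,
        ((b : ℝ) ^ r) ^ (-((1 - gap (b ^ r) l τ) * k)) * N ≤
          num (fun n => ∀ j, bl b (dg b (α j + p j / ((b : ℝ) ^ (k + 2) - 1))) n k = U j) N := by
  have hq : 2 ≤ b ^ r := hb.trans (Nat.le_self_pow (by omega) b)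
  obtain ⟨k0, hk0⟩ := trans_core hq hl hτ hτ1
  refine ⟨k0, fun α a ha hB k hk U hU => ?_⟩
  obtain ⟨W, hW, i, hi, hfr⟩ := hk0 (tc hb0 α) (tc_lt hb0 α) a ha hB k hk
  -- one place with this block
  obtain ⟨N0, hN0, hN0'⟩ := (hfr.and_eventually (eventually_gt_atTop 0)).exists
  have hpos : 0 < num (fun n => bl (b ^ r) (tc hb0 α) n (k + 2) = W ∧ n % (k + 2) = i) N0 := by
    have h1 : (0 : ℝ) < N0 := by exact_mod_cast hN0'
    have h2 : (0 : ℝ) < (((b ^ r : ℕ) : ℝ)) ^ (-((1 - gap (b ^ r) l τ) * k)) * N0 := by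
      have : (0 : ℝ) < ((b ^ r : ℕ) : ℝ) := by push_cast; positivity
      positivity
    have h3 := h2.trans_le hN0
    exact_mod_cast h3
  obtain ⟨n0, hn0⟩ : ∃ n0, bl (b ^ r) (tc hb0 α) n0 (k + 2) = W := by
    obtain ⟨n0, _, hn0⟩ := num_pos hpos
    exact ⟨n0, hn0.1⟩
  have hbl : ∀ n, bl (b ^ r) (tc hb0 α) n (k + 2) = W → ∀ j,
      bl b (dg b (α j)) n (k + 2) = bl b (dg b (α j)) n0 (k + 2) := by
    intro n hn j
    refine bl_congr fun s hs => ?_
    have h1 := bl_inj (by omega : 0 < b ^ r) (tc_lt hb0 α) (hn.trans hn0.symm) hs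
    exact (tc_eq_iff hb0 α _ _).1 h1 j
  have hz : ∀ j, ∃ p : ℕ, p < b ^ (k + 2) - 1 ∧ ∀ (y : ℝ) (n : ℕ),
      ⌊(b : ℝ) ^ (k + 2) * Int.fract (y * (b : ℝ) ^ n)⌋₊ = bl b (dg b (α j)) n0 (k + 2) →
      n % (k + 2) = i →
      ⌊(b : ℝ) ^ k * Int.fract ((y + p / ((b : ℝ) ^ (k + 2) - 1)) * (b : ℝ) ^ n)⌋₊ = U j :=
    fun j => target_run hb (bl_lt (dg_lt hb0 _) _ _) hi (hU j)
  choose p hp1 hp2 using hz
  refine ⟨p, hp1, hfr.mono fun N hN => ?_⟩
  have e : ((b ^ r : ℕ) : ℝ) = (b : ℝ) ^ r := by push_cast; rfl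
  rw [e] at hN
  refine hN.trans ?_
  have h5 := num_mono (P := fun n => bl (b ^ r) (tc hb0 α) n (k + 2) = W ∧ n % (k + 2) = i)
    (Q := fun n => ∀ j, bl b (dg b (α j + p j / ((b : ℝ) ^ (k + 2) - 1))) n k = U j) (fun n hn j => by
      rw [bl_dg]
      exact hp2 j (α j) n (by rw [← bl_dg]; exact hbl n hn.1 j) hn.2) N
  exact_mod_cast h5

end Pool.Agent.Run7.h526.ZR
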