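import Mathlib

/-! # Blocks of a sequence of digits: atypical blocks are exponentially few -/

set_option autoImplicit false

namespace Pool.Agent.Run7.h526.ZR

open Finset Filter Topology

/-- the value of the block of length `k` of the digits `d` after the place `n` -/
def bl (q : ℕ) (d : ℕ → ℕ) (n : ℕ) : ℕ → ℕ
  | 0 => 0
  | k + 1 => q * bl q d n k + d (n + k)

@[simp] lemma bl_zero (q : ℕ) (d : ℕ → ℕ) (n : ℕ) : bl q d n 0 = 0 := rfl

lemma bl_succ (q : ℕ) (d : ℕ → ℕ) (n k : ℕ) : bl q d n (k + 1) = q * bl q d n k + d (n + k) := rfl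

lemma bl_lt {q : ℕ} {d : ℕ → ℕ} (hd : ∀ n, d n < q) (n k : ℕ) : bl q d n k < q ^ k := by
  induction k with
  | zero => simp
  | succ k ih =>
    rw [bl_succ, pow_succ]
    have h1 := hd (n + k)
    have h2 : bl q d n k + 1 ≤ q ^ k := ih
    have h3 : q * (bl q d n k + 1) ≤ q * q ^ k := Nat.mul_le_mul_left _ h2
    nlinarith

lemma bl_add (q : ℕ) (d : ℕ → ℕ) (n k j : ℕ) :
    bl q d n (k + j) = bl q d n k * q ^ j + bl q d (n + k) j := by
  induction j with
  | zero => simp
  | succ j ih =>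
    rw [← add_assoc, bl_succ, ih, bl_succ, pow_succ, add_assoc n k j]
    ring

lemma bl_div {q : ℕ} {d : ℕ → ℕ} (hq : 0 < q) (hd : ∀ n, d n < q) (n k j : ℕ) :
    bl q d n (k + j) / q ^ j = bl q d n k := by
  rw [bl_add, Nat.add_div_of_dvd_right (Dvd.intro_left _ rfl),
    Nat.mul_div_cancel _ (by positivity), Nat.div_eq_of_lt (bl_lt hd _ _), add_zero]

lemma bl_mod {q : ℕ} {d : ℕ → ℕ} (hd : ∀ n, d n < q) (n k j : ℕ) :
    bl q d n (k + j) % q ^ j = bl q d (n + k) j := by
  rw [bl_add, Nat.mul_add_mod_self_right, Nat.mod_eq_of_lt (bl_lt hd _ _)]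

/-- equal blocks have equal digits -/
lemma bl_inj {q : ℕ} {d : ℕ → ℕ} (hq : 0 < q) (hd : ∀ n, d n < q) {n n' k : ℕ}
    (h : bl q d n k = bl q d n' k) {i : ℕ} (hi : i < k) : d (n + i) = d (n' + i) := by
  have h1 : ∀ n, d (n + i) = (bl q d n k / q ^ (k - (i + 1))) % q := by
    intro n
    have e : k = (i + 1) + (k - (i + 1)) := by omega
    have h2 := bl_div hq hd n (i + 1) (k - (i + 1))
    rw [← e] at h2
    rw [h2, bl_succ, Nat.mul_add_mod, Nat.mod_eq_of_lt (hd _)]
  rw [h1, h1, h]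

/-- the number of the digits `a` in base `B` among the last `m` digits of `W` -/
def cntd (B a m W : ℕ) : ℕ := ((range m).filter fun i => W / B ^ i % B = a).card

lemma cntd_zero (B a W : ℕ) : cntd B a 0 W = 0 := by simp [cntd]

lemma cntd_succ {B : ℕ} (hB : 0 < B) (a m c W : ℕ) (hc : c < B) :
    cntd B a (m + 1) (B * W + c) = cntd B a m W + (if c = a then 1 else 0) := by
  unfold cntd
  rw [card_filter, card_filter, sum_range_succ']
  congr 1
  · refine sum_congr rfl fun i _ => ?_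
    have : (B * W + c) / B ^ (i + 1) = W / B ^ i := by
      rw [pow_succ', ← Nat.div_div_eq_div_mul, Nat.mul_add_div hB, Nat.div_eq_of_lt hc, add_zero]
    rw [this]
  · simp only [pow_zero, Nat.div_one, Nat.mul_add_mod, Nat.mod_eq_of_lt hc]

lemma cntd_le (B a m W : ℕ) : cntd B a m W ≤ m := by
  unfold cntd
  exact (card_filter_le _ _).trans (by simp)

/-- the aligned subblocks of a block -/
lemma cntd_bl {q : ℕ} {d : ℕ → ℕ} (hq : 0 < q) (hd : ∀ n, d n < q) (l a m n : ℕ) :
    cntd (q ^ l) a m (bl q d n (l * m)) = ((range m).filter fun j => bl q d (n + l * j) l = a).card := by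
  induction m with
  | zero => simp [cntd]
  | succ m ih =>
    have h1 : bl q d n (l * (m + 1)) = q ^ l * bl q d n (l * m) + bl q d (n + l * m) l := by
      rw [mul_add, mul_one, bl_add]; ring
    rw [h1, cntd_succ (by positivity) a m _ _ (bl_lt hd _ _), ih, range_add_one, filter_insert]
    split_ifs with h
    · rw [card_insert_of_notMem (by simp)]
    · rfl

lemma sum_range_mul {M : Type} [AddCommMonoid M] (B m : ℕ) (f : ℕ → M) :
    ∑ W ∈ range (B * m), f W = ∑ W ∈ range m, ∑ c ∈ range B, f (B * W + c) := by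
  induction m with
  | zero => simp
  | succ m ih =>
    rw [mul_add, mul_one, sum_range_add, ih, sum_range_succ]

lemma exp_le_quad {s : ℝ} (hs : |s| ≤ 1) : Real.exp s ≤ 1 + s + s ^ 2 := by
  have h := Real.abs_exp_sub_one_sub_id_le hs
  have := (abs_le.1 h).2
  linarith

lemma one_factor {B a : ℕ} (ha : a < B) {s : ℝ} (hs : |s| ≤ 1) :
    ∑ c ∈ range B, Real.exp (s * ((if c = a then 1 else 0) - 1 / (B : ℝ))) ≤
      B * Real.exp (s ^ 2) := by
  have hB : (0 : ℝ) < B := by
    have : 0 < B := by omega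
    exact_mod_cast this
  have h1 : ∀ c ∈ range B, Real.exp (s * ((if c = a then 1 else 0) - 1 / (B : ℝ))) =
      Real.exp (-(s / B)) * (1 + (if c = a then Real.exp s - 1 else 0)) := by
    intro c _
    split_ifs
    · rw [add_sub_cancel, ← Real.exp_add]; congr 1; ring
    · rw [add_zero, mul_one]; congr 1; ring
  rw [sum_congr rfl h1, ← mul_sum, sum_add_distrib]
  simp only [sum_const, card_range, nsmul_eq_mul, mul_one, sum_ite_eq', mem_range, ha, if_true]
  have h2 : (B : ℝ) + (Real.exp s - 1) ≤ B * Real.exp ((s + s ^ 2) / B) := by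
    have h3 := exp_le_quad hs
    have h4 : (s + s ^ 2) / B + 1 ≤ Real.exp ((s + s ^ 2) / B) := Real.add_one_le_exp _
    have h5 : B * ((s + s ^ 2) / B + 1) ≤ B * Real.exp ((s + s ^ 2) / B) :=
      mul_le_mul_of_nonneg_left h4 hB.le
    have h6 : B * ((s + s ^ 2) / B + 1) = s + s ^ 2 + B := by field_simp
    linarith
  calc Real.exp (-(s / B)) * (B + (Real.exp s - 1))
      ≤ Real.exp (-(s / B)) * (B * Real.exp ((s + s ^ 2) / B)) :=
        mul_le_mul_of_nonneg_left h2 (Real.exp_pos _).le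
    _ = B * Real.exp (s ^ 2 / B) := by
        rw [mul_left_comm, ← Real.exp_add]; congr 2; ring
    _ ≤ B * Real.exp (s ^ 2) := by
        refine mul_le_mul_of_nonneg_left (Real.exp_le_exp.2 ?_) hB.le
        have h1B : (1 : ℝ) ≤ B := by
          have : 1 ≤ B := by omega
          exact_mod_cast this
        exact div_le_self (sq_nonneg s) h1B

lemma chernoff {B a : ℕ} (ha : a < B) {s : ℝ} (hs : |s| ≤ 1) (m : ℕ) :
    ∑ W ∈ range (B ^ m), Real.exp (s * ((cntd B a m W : ℝ) - m / (B : ℝ))) ≤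
      (B * Real.exp (s ^ 2)) ^ m := by
  have hB : 0 < B := by omega
  induction m with
  | zero => simp [cntd]
  | succ m ih =>
    rw [pow_succ' B m, sum_range_mul]
    have h1 : ∀ W ∈ range (B ^ m), ∑ c ∈ range B,
        Real.exp (s * ((cntd B a (m + 1) (B * W + c) : ℝ) - ((m + 1 : ℕ) : ℝ) / (B : ℝ))) =
        Real.exp (s * ((cntd B a m W : ℝ) - m / (B : ℝ))) *
          ∑ c ∈ range B, Real.exp (s * ((if c = a then 1 else 0) - 1 / (B : ℝ))) := by
      intro W _
      rw [mul_sum]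
      refine sum_congr rfl fun c hc => ?_
      rw [cntd_succ hB a m c W (mem_range.1 hc), ← Real.exp_add]
      congr 1
      push_cast
      ring
    rw [sum_congr rfl h1, ← sum_mul, pow_succ]
    exact mul_le_mul ih (one_factor ha hs) (sum_nonneg fun _ _ => (Real.exp_pos _).le)
      (by positivity)

/-- the atypical blocks -/
noncomputable def At (B a m : ℕ) (τ : ℝ) : Finset ℕ :=
  (range (B ^ m)).filter fun W => τ * m / 2 < |(cntd B a m W : ℝ) - m / (B : ℝ)|

lemma card_side {B a : ℕ} (ha : a < B) {τ : ℝ} (hτ : 0 < τ) (hτ1 : τ ≤ 1) (m : ℕ) {σ : ℝ}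
    (hσ : σ = 1 ∨ σ = -1) :
    (((range (B ^ m)).filter fun W => τ * m / 2 < σ * ((cntd B a m W : ℝ) - m / (B : ℝ))).card : ℝ)
      ≤ (B : ℝ) ^ m * Real.exp (-(τ ^ 2 * m / 16)) := by
  have hs : |σ * (τ / 4)| ≤ 1 := by
    rw [abs_mul, abs_of_pos (show (0 : ℝ) < τ / 4 by positivity)]
    rcases hσ with rfl | rfl <;> simp <;> linarith
  have h := chernoff ha hs m
  have hσ2 : (σ * (τ / 4)) ^ 2 = τ ^ 2 / 16 := by
    rcases hσ with rfl | rfl <;> ring
  have h1 : (((range (B ^ m)).filter fun W =>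
      τ * m / 2 < σ * ((cntd B a m W : ℝ) - m / (B : ℝ))).card : ℝ) * Real.exp (τ ^ 2 * m / 8) ≤
      ∑ W ∈ range (B ^ m), Real.exp (σ * (τ / 4) * ((cntd B a m W : ℝ) - m / (B : ℝ))) := by
    rw [card_eq_sum_ones]
    push_cast
    rw [sum_mul]
    calc _ ≤ ∑ W ∈ (range (B ^ m)).filter fun W =>
          τ * m / 2 < σ * ((cntd B a m W : ℝ) - m / (B : ℝ)),
          Real.exp (σ * (τ / 4) * ((cntd B a m W : ℝ) - m / (B : ℝ))) := by
          refine sum_le_sum fun W hW => ?_
          have h2 := (mem_filter.1 hW).2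
          rw [one_mul]
          refine Real.exp_le_exp.2 ?_
          nlinarith
      _ ≤ _ := sum_le_sum_of_subset_of_nonneg (filter_subset _ _)
          fun _ _ _ => (Real.exp_pos _).le
  rw [hσ2, mul_pow, ← Real.exp_nat_mul] at h
  have h3 := h1.trans h
  have h4 : Real.exp (m * (τ ^ 2 / 16)) = Real.exp (-(τ ^ 2 * m / 16)) * Real.exp (τ ^ 2 * m / 8) := by
    rw [← Real.exp_add]; congr 1; ring
  rw [h4, ← mul_assoc] at h3
  exact le_of_mul_le_mul_right h3 (Real.exp_pos _)

lemma card_At {B a : ℕ} (ha : a < B) {τ : ℝ} (hτ : 0 < τ) (hτ1 : τ ≤ 1) (m : ℕ) :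
    ((At B a m τ).card : ℝ) ≤ 2 * (B : ℝ) ^ m * Real.exp (-(τ ^ 2 * m / 16)) := by
  have h1 := card_side ha hτ hτ1 m (σ := 1) (Or.inl rfl)
  have h2 := card_side ha hτ hτ1 m (σ := -1) (Or.inr rfl)
  have h3 : At B a m τ ⊆
      ((range (B ^ m)).filter fun W => τ * m / 2 < 1 * ((cntd B a m W : ℝ) - m / (B : ℝ))) ∪
      ((range (B ^ m)).filter fun W => τ * m / 2 < (-1) * ((cntd B a m W : ℝ) - m / (B : ℝ))) := by
    intro W hW
    rw [At, mem_filter] at hW
    rw [mem_union, mem_filter, mem_filter]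
    rcases lt_abs.1 hW.2 with h | h
    · exact Or.inl ⟨hW.1, by linarith⟩
    · exact Or.inr ⟨hW.1, by linarith⟩
  have h4 := (card_le_card h3).trans (card_union_le _ _)
  have h5 : ((At B a m τ).card : ℝ) ≤
      (((range (B ^ m)).filter fun W => τ * m / 2 < 1 * ((cntd B a m W : ℝ) - m / (B : ℝ))).card : ℝ) +
      (((range (B ^ m)).filter fun W =>
        τ * m / 2 < (-1) * ((cntd B a m W : ℝ) - m / (B : ℝ))).card : ℝ) := by exact_mod_cast h4
  linarith

end Pool.Agent.Run7.h526.ZR
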