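import Pool.Agent.Run7.h526.ZR.Code

/-! # Returns of the blocks of a normal number -/

set_option autoImplicit false

namespace Pool.Agent.Run7.h526.ZR

open Finset Filter Topology

/-- all words have the right frequency -/
def Good (q : ℕ) (d : ℕ → ℕ) : Prop := ∀ m : ℕ, 1 ≤ m → ∀ a < q ^ m,
  Tendsto (fun N : ℕ => (num (fun n => bl q d n m = a) N : ℝ) / (N : ℝ)) atTop (𝓝 (1 / (q : ℝ) ^ m))

lemma biased_of_not_good {q : ℕ} (hq : 0 < q) {d : ℕ → ℕ} (h : ¬ Good q d) :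
    ∃ m : ℕ, 1 ≤ m ∧ ∃ a < q ^ m, ∃ τ : ℝ, 0 < τ ∧ τ ≤ 1 ∧ Biased q d m a τ := by
  unfold Good at h
  push Not at h
  obtain ⟨m, hm, a, ha, hD⟩ := h
  rw [Metric.tendsto_atTop] at hD
  push Not at hD
  obtain ⟨ε, hε, hD⟩ := hD
  refine ⟨m, hm, a, ha, min (ε / 2) 1, by positivity, min_le_right _ _, ?_⟩
  unfold Biased
  rw [frequently_atTop]
  intro N0
  obtain ⟨N, hN1, hN2⟩ := hD (N0 + 1)
  refine ⟨N, by omega, ?_⟩
  have hN : (0 : ℝ) < N := by exact_mod_cast (by omega : 0 < N)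
  have hqR : (0 : ℝ) < q := by exact_mod_cast hq
  rw [Real.dist_eq] at hN2
  have e : (num (fun n => bl q d n m = a) N : ℝ) - N / (q : ℝ) ^ m =
      ((num (fun n => bl q d n m = a) N : ℝ) / N - 1 / (q : ℝ) ^ m) * N := by
    field_simp
  rw [e, abs_mul, abs_of_pos hN]
  have h2 : min (ε / 2) 1 ≤ ε / 2 := min_le_left _ _
  nlinarith

lemma not_good_of_biased {q : ℕ} (hq : 0 < q) {d : ℕ → ℕ} {m a : ℕ} {τ : ℝ} (hm : 1 ≤ m)
    (ha : a < q ^ m) (hτ : 0 < τ) (h : Biased q d m a τ) : ¬ Good q d := by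
  intro hg
  have h1 := hg m hm a ha
  rw [Metric.tendsto_atTop] at h1
  obtain ⟨N0, hN0⟩ := h1 τ hτ
  obtain ⟨N, hN, hN2⟩ := (frequently_atTop.1 h) (N0 + 1)
  have h3 := hN0 N (by omega)
  have hNR : (0 : ℝ) < N := by exact_mod_cast (by omega : 0 < N)
  have hqR : (0 : ℝ) < q := by exact_mod_cast hq
  rw [Real.dist_eq] at h3
  have e : (num (fun n => bl q d n m = a) N : ℝ) - N / (q : ℝ) ^ m =
      ((num (fun n => bl q d n m = a) N : ℝ) / N - 1 / (q : ℝ) ^ m) * N := by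
    field_simp
  rw [e, abs_mul, abs_of_pos hNR] at hN2
  nlinarith

/-- the geometric sum -/
def geo (q k j : ℕ) : ℕ → ℕ
  | 0 => 0
  | i + 1 => q ^ j * geo q k j i + 1

lemma geo_modEq (q k j c e : ℕ) (h : c ≡ c * q ^ j + e [MOD q ^ k]) (i : ℕ) :
    c ≡ c * q ^ (j * i) + e * geo q k j i [MOD q ^ k] := by
  induction i with
  | zero => simp [geo, Nat.ModEq.refl]
  | succ i ih =>
    calc c ≡ c * q ^ j + e [MOD q ^ k] := h
      _ ≡ (c * q ^ (j * i) + e * geo q k j i) * q ^ j + e [MOD q ^ k] := (ih.mul_right _).add_right _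
      _ = _ := by
        rw [geo, mul_add j, mul_one, pow_add]; ring

lemma geo_step (q k j i : ℕ) : geo q k j i * q ^ j + 1 = geo q k j i + q ^ (j * i) := by
  induction i with
  | zero => simp [geo]
  | succ i ih =>
    have e : q ^ (j * (i + 1)) = q ^ (j * i) * q ^ j := by rw [mul_add, mul_one, pow_add]
    rw [geo, e]
    have : q ^ j * (geo q k j i * q ^ j + 1) = q ^ j * (geo q k j i + q ^ (j * i)) := by rw [ih]
    linarith

/-- the words of length `k + j` which repeat after `j` digits -/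
noncomputable def per (q k j : ℕ) : Finset ℕ :=
  (range (q ^ (k + j))).filter fun W => W / q ^ j = W % q ^ k

lemma card_per {q : ℕ} (hq : 2 ≤ q) (k j : ℕ) (hj : 1 ≤ j) : (per q k j).card = q ^ j := by
  have hqj : 0 < q ^ j := by positivity
  have hqk : 0 < q ^ k := by positivity
  have h1 : per q k j = (range (q ^ j)).image
      fun e => (e * geo q k j k) % q ^ k * q ^ j + e := by
    ext W
    rw [per, mem_filter, mem_range, mem_image]
    have hdvd : q ^ k ∣ q ^ (j * k) := pow_dvd_pow q (by nlinarith)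
    constructor
    · rintro ⟨hW, hW2⟩
      refine ⟨W % q ^ j, mem_range.2 (Nat.mod_lt _ hqj), ?_⟩
      have hc : W / q ^ j < q ^ k := by
        rw [Nat.div_lt_iff_lt_mul hqj, ← pow_add]; exact hW
      have h2 : W / q ^ j ≡ (W / q ^ j) * q ^ j + W % q ^ j [MOD q ^ k] := by
        rw [Nat.div_add_mod']
        conv_lhs => rw [hW2]
        exact Nat.mod_modEq _ _
      have h3 := geo_modEq q k j _ _ h2 k
      have h4 : W / q ^ j ≡ W % q ^ j * geo q k j k [MOD q ^ k] := by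
        refine h3.trans ?_
        have h5 : (W / q ^ j) * q ^ (j * k) ≡ 0 [MOD q ^ k] :=
          (Nat.modEq_zero_iff_dvd.2 (hdvd.mul_left _))
        simpa using h5.add_right (W % q ^ j * geo q k j k)
      have h6 : (W % q ^ j * geo q k j k) % q ^ k = W / q ^ j := by
        rw [← h4, Nat.mod_eq_of_lt hc]
      rw [h6]
      exact Nat.div_add_mod' _ _
    · rintro ⟨e, he, rfl⟩
      have he' := mem_range.1 he
      have hlt : (e * geo q k j k) % q ^ k < q ^ k := Nat.mod_lt _ hqk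
      constructor
      · calc (e * geo q k j k) % q ^ k * q ^ j + e < (e * geo q k j k) % q ^ k * q ^ j + q ^ j := by omega
          _ = ((e * geo q k j k) % q ^ k + 1) * q ^ j := by ring
          _ ≤ q ^ k * q ^ j := Nat.mul_le_mul_right _ hlt
          _ = _ := (pow_add _ _ _).symm
      · rw [Nat.add_div_of_dvd_right (Dvd.intro_left _ rfl), Nat.mul_div_cancel _ hqj,
          Nat.div_eq_of_lt he', add_zero]
        have h7 : (e * geo q k j k) % q ^ k * q ^ j + e ≡ e * geo q k j k [MOD q ^ k] := by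
          calc (e * geo q k j k) % q ^ k * q ^ j + e ≡ e * geo q k j k * q ^ j + e [MOD q ^ k] :=
                ((Nat.mod_modEq _ _).mul_right _).add_right _
            _ = e * (geo q k j k * q ^ j + 1) := by ring
            _ = e * geo q k j k + e * q ^ (j * k) := by rw [geo_step]; ring
            _ ≡ e * geo q k j k + 0 [MOD q ^ k] :=
                (Nat.modEq_zero_iff_dvd.2 (hdvd.mul_left _)).add_left _
            _ = _ := add_zero _
        exact h7.symm
  rw [h1, card_image_of_injOn, card_range]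
  intro e he e' he' h
  simp only at h
  have h2 : ∀ e < q ^ j, ∀ c : ℕ, (c * q ^ j + e) % q ^ j = e := by
    intro e he c
    rw [Nat.mul_add_mod_self_right, Nat.mod_eq_of_lt he]
  have h3 := h2 e (mem_range.1 (mem_coe.1 he)) ((e * geo q k j k) % q ^ k)
  have h4 := h2 e' (mem_range.1 (mem_coe.1 he')) ((e' * geo q k j k) % q ^ k)
  rw [← h3, ← h4, h]

lemma ret_sum {q : ℕ} (hq : 0 < q) {d : ℕ → ℕ} (hd : ∀ n, d n < q) (k j N : ℕ) :
    ret q d k j N = ∑ W ∈ per q k j, num (fun n => bl q d n (k + j) = W) N := by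
  classical
  unfold ret
  simp_rw [num_sum]
  rw [sum_comm]
  refine sum_congr rfl fun n _ => ?_
  have h1 := bl_div hq hd n k j
  have h2 := bl_mod hd n j k
  rw [add_comm j k] at h2
  have h3 : bl q d n (k + j) ∈ per q k j ↔ bl q d n k = bl q d (n + j) k := by
    rw [per, mem_filter, mem_range, h1, h2]
    exact ⟨fun h => h.2, fun h => ⟨bl_lt hd _ _, h⟩⟩
  by_cases h : bl q d n k = bl q d (n + j) k
  · rw [if_pos h, sum_eq_single_of_mem _ (h3.2 h), if_pos rfl]
    intro x _ hx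
    rw [if_neg (Ne.symm hx)]
  · rw [if_neg h]
    symm
    refine sum_eq_zero fun x hx => ?_
    rw [if_neg]
    rintro rfl
    exact h (h3.1 hx)

lemma ret_tendsto {q : ℕ} (hq : 2 ≤ q) {d : ℕ → ℕ} (hd : ∀ n, d n < q) (hg : Good q d) (k : ℕ)
    {j : ℕ} (hj : 1 ≤ j) :
    Tendsto (fun N : ℕ => (ret q d k j N : ℝ) / (N : ℝ)) atTop (𝓝 (1 / (q : ℝ) ^ k)) := by
  have h1 : Tendsto (fun N : ℕ => ∑ W ∈ per q k j,
      (num (fun n => bl q d n (k + j) = W) N : ℝ) / (N : ℝ)) atTop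
      (𝓝 (∑ W ∈ per q k j, 1 / (q : ℝ) ^ (k + j))) := by
    refine tendsto_finsetSum _ fun W hW => hg (k + j) (by omega) W ?_
    exact mem_range.1 (mem_filter.1 hW).1
  have e : ∑ W ∈ per q k j, 1 / (q : ℝ) ^ (k + j) = 1 / (q : ℝ) ^ k := by
    have hqR : (0 : ℝ) < q := by exact_mod_cast (by omega : 0 < q)
    rw [sum_const, card_per hq k j hj, nsmul_eq_mul, pow_add]
    push_cast
    field_simp
  rw [e] at h1
  refine h1.congr fun N => ?_
  rw [ret_sum (by omega) hd, ← sum_div]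
  push_cast
  rfl

lemma pair_tendsto {q : ℕ} (hq : 2 ≤ q) {d : ℕ → ℕ} (hd : ∀ n, d n < q) (hg : Good q d) (k : ℕ) :
    Tendsto (fun N : ℕ => ((∑ j ∈ Icc 1 (q ^ k), ret q d k j N : ℕ) : ℝ) / (N : ℝ)) atTop (𝓝 1) := by
  have h1 : Tendsto (fun N : ℕ => ∑ j ∈ Icc 1 (q ^ k), (ret q d k j N : ℝ) / (N : ℝ)) atTop
      (𝓝 (∑ j ∈ Icc 1 (q ^ k), 1 / (q : ℝ) ^ k)) :=
    tendsto_finsetSum _ fun j hj => ret_tendsto hq hd hg k (mem_Icc.1 hj).1
  have e : ∑ j ∈ Icc 1 (q ^ k), 1 / (q : ℝ) ^ k = 1 := by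
    have hqR : (0 : ℝ) < q := by exact_mod_cast (by omega : 0 < q)
    rw [sum_const, Nat.card_Icc, nsmul_eq_mul]
    push_cast
    field_simp
  rw [e] at h1
  refine h1.congr fun N => ?_
  rw [← sum_div]
  push_cast
  rfl

/-- a digit sequence with a biased word is far from good: the criterion by pairs -/
theorem pair_crit {q : ℕ} (hq : 2 ≤ q) {d : ℕ → ℕ} (hd : ∀ n, d n < q)
    (h : ∀ ε : ℝ, 0 < ε → ∀ K : ℕ, ∃ k ≥ K, ∀ᶠ N : ℕ in atTop,
      ((∑ j ∈ Icc 1 (q ^ k), ret q d k j N : ℕ) : ℝ) ≤ (q : ℝ) ^ (ε * k) * N) : Good q d := by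
  by_contra hng
  obtain ⟨m, hm, a, ha, τ, hτ, hτ1, hB⟩ := biased_of_not_good (by omega) hng
  have hc0 := gap_pos hq hm hτ
  obtain ⟨k0, hk0⟩ := rep_core hq hm hτ hτ1
  obtain ⟨k, hk, hev⟩ := h (gap q m τ / 2) (by positivity) (k0 + 1)
  have hfr := hk0 d hd a ha hB k (by omega)
  obtain ⟨N, hN1, hN2, hN3⟩ := (hfr.and_eventually (hev.and (eventually_gt_atTop 0))).exists
  have hN : (0 : ℝ) < N := by exact_mod_cast hN3
  have hkR : (0 : ℝ) < k := by exact_mod_cast (by omega : 0 < k)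
  have hq1 : (1 : ℝ) < q := by exact_mod_cast (by omega : 1 < q)
  have h1 : (q : ℝ) ^ (gap q m τ / 2 * k) < (q : ℝ) ^ (gap q m τ * k) :=
    Real.rpow_lt_rpow_of_exponent_lt hq1 (by nlinarith)
  nlinarith

end Pool.Agent.Run7.h526.ZR
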