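import Pool.Agent.Run7.h526.ZR.Norm
import Pool.Agent.Run7.h526.ZR.Ret

/-! # The criteria -/

set_option autoImplicit false

namespace Pool.Agent.Run7.h526.ZR

open Finset Filter Topology
open Pool.Agent.H534R3.UDist Pool.Agent.H534R3.Rota
open scoped Real

lemma e_eq_ee (t : ℝ) : Pool.Agent.Y933.KD.e t = ee t := by
  unfold Pool.Agent.Y933.KD.e ee
  congr 1
  push_cast
  ring

/-- small exponential sums: boxes are visited with the right frequency -/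
lemma box_tendsto {r : ℕ} (y : ℕ → Fin r → ℝ)
    (h : ∀ H : Fin r → ℤ, H ≠ 0 →
      Tendsto (fun N : ℕ => ‖∑ n ∈ range N, ee (∑ j, H j * y n j)‖ / N) atTop (𝓝 0))
    (u v : Fin r → ℝ) (hu : ∀ i, 0 ≤ u i) (huv : ∀ i, u i ≤ v i) (hv : ∀ i, v i ≤ 1) :
    Tendsto (fun N : ℕ =>
      (num (fun n => ∀ i, u i ≤ Int.fract (y n i) ∧ Int.fract (y n i) < v i) N : ℝ) / N) atTop
      (𝓝 (∏ i, (v i - u i))) := by
  classical
  rw [Metric.tendsto_atTop]
  intro ε hε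
  obtain ⟨K, hK⟩ := exists_nat_gt (max 1 (48 * r / ε))
  have hK1 : (1 : ℝ) < K := (le_max_left _ _).trans_lt hK
  have hK2 : 48 * r / ε < (K : ℝ) := (le_max_right _ _).trans_lt hK
  have hK0 : 0 < K := by
    have : (0 : ℝ) < K := by linarith
    exact_mod_cast this
  set P : ℝ := (2 * (K : ℝ) ^ 3 + 1) ^ r + 5 * r with hP
  have hP0 : 0 < P := by positivity
  set Δ : ℝ := ε / (4 * P) with hΔ
  have hΔ0 : 0 < Δ := by positivity
  set S : Finset (Fin r → ℤ) :=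
    (Fintype.piFinset fun _ : Fin r => Icc (-((K : ℤ) ^ 3)) ((K : ℤ) ^ 3)).filter fun H => H ≠ 0 with hS
  have hev : ∀ᶠ N : ℕ in atTop, ∀ H ∈ S, ‖∑ n ∈ range N, ee (∑ j, H j * y n j)‖ / N < Δ := by
    rw [eventually_all_finset]
    intro H hH
    exact (h H (mem_filter.1 hH).2).eventually (gt_mem_nhds hΔ0)
  obtain ⟨N0, hN0⟩ := eventually_atTop.1 hev
  refine ⟨N0 + 1, fun N hN => ?_⟩
  have hNp : 0 < N := by omega
  have hNR : (0 : ℝ) < N := by exact_mod_cast hNp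
  have h1 := Pool.Agent.R485.TransS.weyl_box (d := r) hK0 (range N) (by simp; omega) y Δ hΔ0.le
    (fun H hH hle => by
      have h2 := hN0 N (by omega) H (by
        rw [hS, mem_filter, Fintype.mem_piFinset]
        refine ⟨fun i => ?_, hH⟩
        rw [mem_Icc]
        exact abs_le.1 (hle i))
      rw [div_lt_iff₀ hNR] at h2
      rw [card_range]
      simp_rw [e_eq_ee]
      exact h2.le) u v hu huv hv
  rw [card_range] at h1
  rw [Real.dist_eq]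
  have e1 : (num (fun n => ∀ i, u i ≤ Int.fract (y n i) ∧ Int.fract (y n i) < v i) N : ℝ) =
      (((range N).filter (fun n => ∀ i, u i ≤ Int.fract (y n i) ∧ Int.fract (y n i) < v i)).card : ℝ) := by
    rw [num_eq]
    congr!
  rw [e1]
  set Q : ℝ := (((range N).filter (fun n => ∀ i, u i ≤ Int.fract (y n i) ∧
    Int.fract (y n i) < v i)).card : ℝ) with hQ
  have e2 : Q / N - ∏ i, (v i - u i) = (Q - N * ∏ i, (v i - u i)) / N := by
    field_simp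
  rw [e2, abs_div, abs_of_pos hNR, div_lt_iff₀ hNR]
  refine h1.trans_lt ?_
  refine mul_lt_mul_of_pos_right ?_ hNR
  have h3 : (r : ℝ) * (12 / K) ≤ ε / 4 := by
    have hKR : (0 : ℝ) < K := by linarith
    rw [div_lt_iff₀ hε] at hK2
    rw [← mul_div_assoc, div_le_iff₀ hKR]
    linarith
  have h4 : P * Δ = ε / 4 := by
    rw [hΔ]; field_simp
  calc (2 * (K : ℝ) ^ 3 + 1) ^ r * Δ + r * (12 / K + 5 * Δ) = P * Δ + r * (12 / K) := by
        rw [hP]; ring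
    _ ≤ ε / 4 + ε / 4 := by linarith
    _ < ε := by linarith

/-- the count of a matrix as a count of blocks -/
lemma cntA_blocks {b r m : ℕ} (hb : 0 < b) (D : Fin r → Fin m → Fin b) :
    ∃ c : Fin r → ℕ, (∀ j, c j < b ^ m) ∧ ∀ (α : Fin r → ℝ) (N : ℕ),
      cntA α D N = num (fun n => ∀ j : Fin r, bl b (dg b (α j)) n m = c j) N := by
  set w : Fin r → ℕ → ℕ := fun j t => if h : t < m then (D j ⟨t, h⟩ : ℕ) else 0 with hw
  have hwlt : ∀ j t, w j t < b := by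
    intro j t
    simp only [hw]
    split_ifs
    · exact Fin.is_lt _
    · exact hb
  refine ⟨fun j => bl b (w j) 0 m, fun j => bl_lt (hwlt j) 0 m, fun α N => ?_⟩
  rw [← cntA_prod hb α w hwlt]
  congr 1
  funext j t
  simp [hw]

/-- the rational translates of a normal tuple -/
lemma words_of_normal {b r : ℕ} (hb : 2 ≤ b) {α : Fin r → ℝ} (h : NormalT b α) (ρ : Fin r → ℚ) (k : ℕ)
    (U : Fin r → ℕ) (hU : ∀ j, U j < b ^ k) :
    Tendsto (fun N : ℕ => (num (fun n => ∀ j, bl b (dg b (α j + ρ j)) n k = U j) N : ℝ) / N) atTop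
      (𝓝 (1 / ((b : ℝ) ^ r) ^ k)) := by
  have hbk : (0 : ℝ) < (b : ℝ) ^ k := by
    have : (0 : ℝ) < b := by exact_mod_cast (by omega : 0 < b)
    positivity
  have h1 := box_tendsto (fun n j => (α j + ρ j) * (b : ℝ) ^ n) (fun H hH => by
    refine (weyl_translate hb h ρ H hH).congr fun N => ?_
    congr 2
    refine sum_congr rfl fun n _ => ?_
    congr 1
    rw [mul_sum]
    refine sum_congr rfl fun j _ => ?_
    ring) (fun j => (U j : ℝ) / (b : ℝ) ^ k) (fun j => ((U j : ℝ) + 1) / (b : ℝ) ^ k)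
    (fun _ => by positivity) (fun _ => div_le_div_of_nonneg_right (by linarith) hbk.le) (fun j => by
      rw [div_le_one hbk]
      exact_mod_cast hU j)
  have e : ∏ j : Fin r, (((U j : ℝ) + 1) / (b : ℝ) ^ k - (U j : ℝ) / (b : ℝ) ^ k) =
      1 / ((b : ℝ) ^ r) ^ k := by
    have : ∀ j : Fin r, ((U j : ℝ) + 1) / (b : ℝ) ^ k - (U j : ℝ) / (b : ℝ) ^ k = 1 / (b : ℝ) ^ k := by
      intro j; ring
    simp_rw [this]
    rw [prod_const, card_univ, Fintype.card_fin, one_div, one_div, inv_pow, ← pow_mul,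
      ← pow_mul, mul_comm]
  rw [e] at h1
  refine h1.congr fun N => ?_
  congr 2
  refine num_congr (fun n => forall_congr' fun j => ?_) N
  rw [bl_dg, Nat.floor_eq_iff (mul_nonneg hbk.le (Int.fract_nonneg _)), div_le_iff₀ hbk, lt_div_iff₀ hbk,
    mul_comm]

/-- the frequency of any matrix in a rational translate of a normal tuple -/
lemma cntA_of_normal {b r : ℕ} (hb : 2 ≤ b) {α : Fin r → ℝ} (h : NormalT b α) (ρ : Fin r → ℚ) (k : ℕ)
    (D : Fin r → Fin k → Fin b) :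
    Tendsto (fun N : ℕ => (cntA (fun j => α j + ρ j) D N : ℝ) / N) atTop
      (𝓝 (1 / ((b : ℝ) ^ r) ^ k)) := by
  obtain ⟨c, hc, hcount⟩ := cntA_blocks (by omega : 0 < b) D
  refine (words_of_normal hb h ρ k c hc).congr fun N => ?_
  rw [hcount]

/-- rational translates of normal tuples are normal -/
lemma normal_add {b r : ℕ} (hb : 2 ≤ b) {α : Fin r → ℝ} (h : NormalT b α) (ρ : Fin r → ℚ) :
    NormalT b (fun j => α j + ρ j) := by
  intro m _ D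
  have := cntA_of_normal hb h ρ m D
  rwa [← pow_mul, mul_comm r m] at this

lemma rate_of_normal {b r : ℕ} (hb : 2 ≤ b) (hr : 1 ≤ r) {α : Fin r → ℝ} (h : NormalT b α) {ε : ℝ}
    (hε : 0 < ε) {k : ℕ} (hk : 1 ≤ k) (D : Fin r → Fin k → Fin b) (ρ : Fin r → ℚ) :
    ∀ᶠ N : ℕ in atTop, (cntA (fun j => α j + ρ j) D N : ℝ) ≤
      ((b : ℝ) ^ r) ^ (-((1 - ε) * k)) * N := by
  have hq1 : (1 : ℝ) < (b : ℝ) ^ r :=
    one_lt_pow₀ (by exact_mod_cast (by omega : 1 < b)) (by omega)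
  have h1 := cntA_of_normal hb h ρ k D
  have h2 : 1 / ((b : ℝ) ^ r) ^ k < ((b : ℝ) ^ r) ^ (-((1 - ε) * (k : ℝ))) := by
    have e : 1 / ((b : ℝ) ^ r) ^ k = ((b : ℝ) ^ r) ^ (-(k : ℝ)) := by
      rw [Real.rpow_neg (by positivity), Real.rpow_natCast, one_div]
    rw [e]
    refine Real.rpow_lt_rpow_of_exponent_lt hq1 ?_
    have : (0 : ℝ) < (k : ℝ) := by exact_mod_cast hk
    nlinarith
  filter_upwards [h1.eventually (gt_mem_nhds h2), eventually_gt_atTop 0] with N h3 h4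
  have hN : (0 : ℝ) < N := by exact_mod_cast h4
  rw [div_lt_iff₀ hN] at h3
  exact h3.le

/-- the gap -/
theorem joint_gap {b r m : ℕ} (hb : 2 ≤ b) (hr : 1 ≤ r) (hm : 1 ≤ m) {τ : ℝ} (hτ : 0 < τ)
    (hτ1 : τ ≤ 1) :
    ∃ k0 : ℕ, ∀ (α : Fin r → ℝ) (D : Fin r → Fin m → Fin b),
      (∃ᶠ N : ℕ in atTop, τ * N < |(cntA α D N : ℝ) - N / (b : ℝ) ^ (m * r)|) →
      ∀ k ≥ k0, ∀ U : Fin r → Fin k → Fin b,
        ∃ p : Fin r → ℕ, (∀ j, p j < b ^ (k + 2) - 1) ∧ ∃ᶠ N : ℕ in atTop,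
        ((b : ℝ) ^ r) ^ (-((1 - τ ^ 2 / (64 * m * (r * Real.log b))) * k)) * N ≤
          cntA (fun j => α j + p j / ((b : ℝ) ^ (k + 2) - 1)) U N := by
  have hb0 : 0 < b := by omega
  obtain ⟨k0, hk0⟩ := translate_gap hb hr hm hτ hτ1 hb0
  refine ⟨k0, fun α D hD k hk U => ?_⟩
  obtain ⟨a, ha, hcount⟩ := cntA_code hb0 D
  obtain ⟨c, hc, hcount2⟩ := cntA_blocks hb0 U
  have hB : Biased (b ^ r) (tc hb0 α) m a τ := by
    refine hD.mono fun N hN => ?_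
    rw [hcount α N] at hN
    have e : (((b ^ r : ℕ) : ℝ)) ^ m = (b : ℝ) ^ (m * r) := by
      push_cast
      rw [← pow_mul, mul_comm]
    rw [e]
    exact hN
  obtain ⟨p, hp, hfr⟩ := hk0 α a ha hB k hk c hc
  refine ⟨p, hp, hfr.mono fun N hN => ?_⟩
  have e : gap (b ^ r) m τ = τ ^ 2 / (64 * m * (r * Real.log b)) := by
    unfold gap
    push_cast
    rw [Real.log_pow]
  rw [e] at hN
  rw [hcount2]
  exact hN

/-- a tuple which is not normal -/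
theorem gap_of_not {b r : ℕ} (hb : 2 ≤ b) (hr : 1 ≤ r) {α : Fin r → ℝ} (hn : ¬ NormalT b α) :
    ∃ c : ℝ, 0 < c ∧ ∃ k0 : ℕ, ∀ k ≥ k0, ∀ U : Fin r → Fin k → Fin b,
      ∃ p : Fin r → ℕ, (∀ j, p j < b ^ (k + 2) - 1) ∧ ∃ᶠ N : ℕ in atTop,
        ((b : ℝ) ^ r) ^ (-((1 - c) * k)) * N ≤
          cntA (fun j => α j + p j / ((b : ℝ) ^ (k + 2) - 1)) U N := by
  have hb0 : 0 < b := by omega
  obtain ⟨m, hm, a, ha, τ, hτ, hτ1, hB⟩ := biased_of_not hb0 hn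
  have hq : 2 ≤ b ^ r := hb.trans (Nat.le_self_pow (by omega) b)
  obtain ⟨k0, hk0⟩ := translate_gap hb hr hm hτ hτ1 hb0
  refine ⟨gap (b ^ r) m τ, gap_pos hq hm hτ, k0, fun k hk U => ?_⟩
  obtain ⟨c, hc, hcount⟩ := cntA_blocks hb0 U
  obtain ⟨p, hp, hfr⟩ := hk0 α a ha hB k hk c hc
  refine ⟨p, hp, hfr.mono fun N hN => ?_⟩
  rw [hcount]
  exact hN

/-- **criterion** for the classes of tuples which are closed under rational translations -/
theorem class_crit {b r : ℕ} (hb : 2 ≤ b) (hr : 1 ≤ r) (C : Set (Fin r → ℝ))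
    (hC : ∀ α ∈ C, ∀ ρ : Fin r → ℚ, (fun j => α j + ρ j) ∈ C) :
    (∀ α ∈ C, NormalT b α) ↔ ∀ ε : ℝ, 0 < ε → ∀ K : ℕ, ∃ k ≥ K, ∃ U : Fin r → Fin k → Fin b,
      ∀ α ∈ C, ∀ᶠ N : ℕ in atTop,
        (cntA α U N : ℝ) ≤ ((b : ℝ) ^ r) ^ (-((1 - ε) * k)) * N := by
  have hb0 : 0 < b := by omega
  have hq1 : (1 : ℝ) < (b : ℝ) ^ r :=
    one_lt_pow₀ (by exact_mod_cast (by omega : 1 < b)) (by omega)
  constructor
  · intro h ε hε K
    refine ⟨K + 1, by omega, fun _ _ => ⟨0, hb0⟩, fun α hα => ?_⟩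
    have h1 := rate_of_normal hb hr (h α hα) hε (by omega : 1 ≤ K + 1) (fun _ _ => ⟨0, hb0⟩) 0
    simpa using h1
  · intro h α hα
    by_contra hn
    obtain ⟨c, hc, k0, hk0⟩ := gap_of_not hb hr hn
    obtain ⟨k, hk, U, hev⟩ := h (c / 2) (by positivity) (k0 + 1)
    obtain ⟨p, -, hfr⟩ := hk0 k (by omega) U
    have hev' := hev _ (hC α hα (fun j => (p j : ℚ) / ((b : ℚ) ^ (k + 2) - 1)))
    obtain ⟨N, hN1, hN2, hN3⟩ := (hfr.and_eventually (hev'.and (eventually_gt_atTop 0))).exists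
    have hN : (0 : ℝ) < N := by exact_mod_cast hN3
    have hkR : (0 : ℝ) < k := by exact_mod_cast (by omega : 0 < k)
    push_cast at hN2
    have h1 : ((b : ℝ) ^ r) ^ (-((1 - c / 2) * k)) < ((b : ℝ) ^ r) ^ (-((1 - c) * k)) :=
      Real.rpow_lt_rpow_of_exponent_lt hq1 (by nlinarith)
    have h2 := hN1.trans hN2
    have h3 := le_of_mul_le_mul_right h2 hN
    linarith

/-- **criterion** for one tuple -/
theorem joint_crit {b r : ℕ} (hb : 2 ≤ b) (hr : 1 ≤ r) (α : Fin r → ℝ) :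
    NormalT b α ↔ ∀ ε : ℝ, 0 < ε → ∀ K : ℕ, ∃ k ≥ K, ∃ U : Fin r → Fin k → Fin b,
      ∀ ρ : Fin r → ℚ, ∀ᶠ N : ℕ in atTop,
        (cntA (fun j => α j + ρ j) U N : ℝ) ≤ ((b : ℝ) ^ r) ^ (-((1 - ε) * k)) * N := by
  have h := class_crit hb hr {β : Fin r → ℝ | ∃ ρ : Fin r → ℚ, β = fun j => α j + ρ j} (by
    rintro _ ⟨ρ, rfl⟩ σ
    exact ⟨fun j => ρ j + σ j, by funext j; push_cast; ring⟩)
  constructor
  · intro hn
    have h1 := h.1 (by
      rintro _ ⟨ρ, rfl⟩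
      exact normal_add hb hn ρ)
    intro ε hε K
    obtain ⟨k, hk, U, h2⟩ := h1 ε hε K
    exact ⟨k, hk, U, fun ρ => h2 _ ⟨ρ, rfl⟩⟩
  · intro hn
    refine h.2 (fun ε hε K => ?_) α ⟨0, by funext j; simp⟩
    obtain ⟨k, hk, U, h2⟩ := hn ε hε K
    refine ⟨k, hk, U, ?_⟩
    rintro _ ⟨ρ, rfl⟩
    exact h2 ρ

end Pool.Agent.Run7.h526.ZR
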