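import Pool.Agent.Run7.h526.ZR.Ret

/-! # Early returns -/

set_option autoImplicit false

namespace Pool.Agent.Run7.h526.ZR

open Finset Filter Topology

/-- the block of length `k` after the place `n` stands again at most `L` places later -/
def early (q : ℕ) (d : ℕ → ℕ) (k : ℕ) (L : ℝ) (n : ℕ) : Prop :=
  ∃ j : ℕ, 1 ≤ j ∧ (j : ℝ) ≤ L ∧ bl q d n k = bl q d (n + j) k

open Classical in
lemma late_card {q : ℕ} {d : ℕ → ℕ} (A : Finset ℕ) (k : ℕ) {L : ℕ} (hL : 1 ≤ L) (N : ℕ) :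
    num (fun n => bl q d n k ∈ A ∧ ¬ early q d k L n) N ≤ A.card * (N / L + 1) := by
  rw [num_eq]
  have h : ((range N).filter fun n => bl q d n k ∈ A ∧ ¬ early q d k L n).card ≤
      (A ×ˢ range (N / L + 1)).card := by
    refine card_le_card_of_injOn (fun n => (bl q d n k, n / L)) (fun n hn => ?_) ?_
    · have hn' := mem_filter.1 (mem_coe.1 hn)
      refine mem_coe.2 (mem_product.2 ⟨hn'.2.1, mem_range.2 ?_⟩)
      exact Nat.lt_succ_of_le (Nat.div_le_div_right (mem_range.1 hn'.1).le)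
    · have key : ∀ n n' : ℕ, n < n' → ¬ early q d k L n → bl q d n k = bl q d n' k →
          n / L = n' / L → False := by
        intro n n' hlt hne h1 h2
        refine hne ⟨n' - n, by omega, ?_, ?_⟩
        · have h3 : n' - n ≤ L := by
            have e1 := Nat.div_add_mod n L
            have e2 := Nat.div_add_mod n' L
            rw [h2] at e1
            have e3 := Nat.mod_lt n' (by omega : 0 < L)
            omega
          exact_mod_cast h3
        · have e : n + (n' - n) = n' := by omega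
          rw [e]; exact h1
      intro n hn n' hn' h
      have a1 := mem_filter.1 (mem_coe.1 hn)
      have a2 := mem_filter.1 (mem_coe.1 hn')
      simp only [Prod.mk.injEq] at h
      rcases lt_trichotomy n n' with hlt | heq | hlt
      · exact (key n n' hlt a1.2.2 h.1 h.2).elim
      · exact heq
      · exact (key n' n hlt a2.2.2 h.1.symm h.2.symm).elim
  refine (le_of_eq ?_).trans (h.trans (le_of_eq ?_))
  · congr!
  · rw [card_product, card_range]

lemma num_le_add (P Q : ℕ → Prop) (N : ℕ) : num P N ≤ num Q N + num (fun n => P n ∧ ¬ Q n) N := by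
  classical
  rw [num_sum, num_sum, num_sum, ← sum_add_distrib]
  refine sum_le_sum fun n _ => ?_
  by_cases h1 : P n
  · by_cases h2 : Q n
    · rw [if_pos h1, if_pos h2]; omega
    · rw [if_pos h1, if_neg h2, if_pos ⟨h1, h2⟩]
  · rw [if_neg h1]; omega

/-- **a biased word: a positive proportion of the blocks of length `k` returns early** -/
theorem early_core {q : ℕ} (hq : 2 ≤ q) {l : ℕ} (hl : 1 ≤ l) {τ : ℝ} (hτ : 0 < τ) (hτ1 : τ ≤ 1) :
    ∃ k0 : ℕ, ∀ d : ℕ → ℕ, (∀ n, d n < q) → ∀ a < q ^ l, Biased q d l a τ →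
      ∀ k ≥ k0, ∃ᶠ N : ℕ in atTop,
        τ / 8 * N ≤ num (early q d k ((q : ℝ) ^ ((1 - gap q l τ) * k))) N := by
  have hq0 : (0 : ℝ) < q := by
    have : 0 < q := by omega
    exact_mod_cast this
  have hq1 : (1 : ℝ) < q := by exact_mod_cast (by omega : 1 < q)
  set c := gap q l τ with hc
  have hc0 : 0 < c := gap_pos hq hl hτ
  obtain ⟨k1, hk1⟩ := eventually_atTop.1 (decay hq hc0 (δ := τ / 32) (by positivity))
  obtain ⟨k2, hk2⟩ := exists_nat_ge (64 * l / τ ^ 2)
  refine ⟨k1 + k2 + l, fun d hd a ha hb k hk => ?_⟩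
  have hK2 : 64 * l / τ ^ 2 ≤ (k : ℝ) :=
    hk2.trans (by exact_mod_cast (by omega : k2 ≤ k))
  have hKl : l ≤ k := by omega
  have hk1' : 1 ≤ k := by omega
  have hkR : (1 : ℝ) ≤ k := by exact_mod_cast hk1'
  set A := Atk q l a τ k with hA
  have hcard : (A.card : ℝ) ≤ (q : ℝ) ^ ((1 - 2 * c) * k) := by
    have h := card_Atk_le hq hl ha hτ hτ1 hK2
    have e : τ ^ 2 / (32 * l * Real.log q) = 2 * c := by
      rw [hc, gap]; ring
    rw [e] at h
    exact h
  have hdec : (q : ℝ) ^ (-(c * k)) ≤ τ / 32 := by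
    have h := hk1 k (by omega)
    have h2 : 0 < (q : ℝ) ^ (-(c * k)) := by positivity
    nlinarith
  have hc1 : c ≤ 1 := by
    rw [hc, gap]
    have h1 : (1 : ℝ) ≤ l := by exact_mod_cast hl
    have h2 : 1 / 2 ≤ Real.log q := by
      have h3 : Real.log 2 ≤ Real.log q := Real.log_le_log (by norm_num) (by exact_mod_cast hq)
      have := Real.log_two_gt_d9
      linarith
    rw [div_le_one (by positivity)]
    have h4 : τ ^ 2 ≤ 1 := by nlinarith
    nlinarith
  set R : ℝ := (q : ℝ) ^ ((1 - c) * k) with hR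
  have hR1 : 1 ≤ R := by
    rw [hR]
    exact Real.one_le_rpow hq1.le (mul_nonneg (by linarith) (by linarith))
  set L : ℕ := ⌊R⌋₊ with hL
  have hL1 : 1 ≤ L := by
    rw [hL]; exact Nat.le_floor (by exact_mod_cast hR1)
  have hLR : (0 : ℝ) < L := by exact_mod_cast (by omega : 0 < L)
  have hL2 : R ≤ 2 * L := by
    have h1 : R < L + 1 := Nat.lt_floor_add_one R
    have h2 : (1 : ℝ) ≤ L := by exact_mod_cast hL1
    linarith
  have hAL : (A.card : ℝ) / L ≤ τ / 16 := by
    rw [div_le_iff₀ hLR]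
    calc (A.card : ℝ) ≤ (q : ℝ) ^ ((1 - 2 * c) * k) := hcard
      _ = (q : ℝ) ^ (-(c * k)) * R := by
          rw [hR, ← Real.rpow_add hq0]; congr 1; ring
      _ ≤ τ / 32 * (2 * L) := mul_le_mul hdec hL2 (by positivity) (by positivity)
      _ = _ := by ring
  have h2 : ∀ᶠ N : ℕ in atTop, (16 * A.card : ℝ) ≤ τ * N := by
    have : Tendsto (fun N : ℕ => τ * (N : ℝ)) atTop atTop :=
      tendsto_natCast_atTop_atTop.const_mul_atTop hτ
    exact this.eventually_ge_atTop _
  have h3 : ∀ᶠ N : ℕ in atTop, (4 * k : ℝ) ≤ τ * N := by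
    have : Tendsto (fun N : ℕ => τ * (N : ℝ)) atTop atTop :=
      tendsto_natCast_atTop_atTop.const_mul_atTop hτ
    exact this.eventually_ge_atTop _
  refine (hb.and_eventually (h2.and h3)).mono ?_
  rintro N ⟨hN1, hN2, hN3⟩
  have h4 := prop_Atk (by omega : 0 < q) hd hl hτ hKl hN1 hN3
  have h5 := num_le_add (fun n => bl q d n k ∈ A) (early q d k L) N
  have h6 := late_card (q := q) (d := d) A k hL1 N
  have h7 : (num (fun n => bl q d n k ∈ A) N : ℝ) ≤
      num (early q d k L) N + (A.card : ℝ) * ((N : ℝ) / L + 1) := by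
    have h8 : (num (fun n => bl q d n k ∈ A) N : ℝ) ≤
        num (early q d k L) N + (A.card : ℝ) * (((N / L : ℕ) : ℝ) + 1) := by
      exact_mod_cast h5.trans (Nat.add_le_add_left h6 _)
    have h9 : ((N / L : ℕ) : ℝ) ≤ (N : ℝ) / L := Nat.cast_div_le
    have h10 : (A.card : ℝ) * (((N / L : ℕ) : ℝ) + 1) ≤ (A.card : ℝ) * ((N : ℝ) / L + 1) :=
      mul_le_mul_of_nonneg_left (by linarith) (Nat.cast_nonneg _)
    linarith
  have h8 : (A.card : ℝ) * ((N : ℝ) / L + 1) ≤ τ / 8 * N := by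
    have e : (A.card : ℝ) * ((N : ℝ) / L + 1) = (A.card : ℝ) / L * N + A.card := by
      field_simp
    have h9 : (A.card : ℝ) / L * N ≤ τ / 16 * N := mul_le_mul_of_nonneg_right hAL (Nat.cast_nonneg _)
    rw [e]; linarith
  have h9 : (num (early q d k L) N : ℝ) ≤ num (early q d k R) N := by
    have := num_mono (P := early q d k L) (Q := early q d k R) (fun n hn => by
      obtain ⟨j, h1, h2, h3⟩ := hn
      exact ⟨j, h1, h2.trans (Nat.floor_le (by linarith)), h3⟩) N
    exact_mod_cast this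
  linarith

/-- a union bound -/
lemma early_le {q : ℕ} {d : ℕ → ℕ} (k : ℕ) (L : ℝ) (N : ℕ) :
    num (early q d k L) N ≤ ∑ j ∈ Icc 1 ⌊L⌋₊, ret q d k j N := by
  classical
  unfold ret
  simp_rw [num_sum]
  rw [sum_comm]
  refine sum_le_sum fun n _ => ?_
  by_cases h : early q d k L n
  · rw [if_pos h]
    obtain ⟨j, h1, h2, h3⟩ := h
    have h4 : (if bl q d n k = bl q d (n + j) k then 1 else 0) ≤
        ∑ x ∈ Icc 1 ⌊L⌋₊, if bl q d n k = bl q d (n + x) k then 1 else 0 :=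
      single_le_sum (f := fun x => if bl q d n k = bl q d (n + x) k then 1 else 0)
        (fun _ _ => Nat.zero_le _) (mem_Icc.2 ⟨h1, Nat.le_floor h2⟩)
    rw [if_pos h3] at h4
    exact h4.trans (le_of_eq (sum_congr rfl fun _ _ => by congr))
  · rw [if_neg h]; omega

/-- good digits: early returns are exponentially rare -/
lemma early_good {q : ℕ} (hq : 2 ≤ q) {d : ℕ → ℕ} (hd : ∀ n, d n < q) (hg : Good q d) {k : ℕ}
    {ε : ℝ} (_ : 0 < ε) :
    ∀ᶠ N : ℕ in atTop, (num (early q d k ((q : ℝ) ^ ((1 - ε) * k))) N : ℝ) ≤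
      2 * (q : ℝ) ^ (-(ε * k)) * N := by
  have hq0 : (0 : ℝ) < q := by
    have : 0 < q := by omega
    exact_mod_cast this
  set L : ℕ := ⌊(q : ℝ) ^ ((1 - ε) * k)⌋₊ with hL
  have h1 : Tendsto (fun N : ℕ => ∑ j ∈ Icc 1 L, (ret q d k j N : ℝ) / (N : ℝ)) atTop
      (𝓝 (∑ j ∈ Icc 1 L, 1 / (q : ℝ) ^ k)) :=
    tendsto_finsetSum _ fun j hj => ret_tendsto hq hd hg k (mem_Icc.1 hj).1
  have e : ∑ j ∈ Icc 1 L, 1 / (q : ℝ) ^ k ≤ (q : ℝ) ^ (-(ε * k)) := by
    rw [sum_const, Nat.card_Icc, nsmul_eq_mul, Nat.add_sub_cancel]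
    have h2 : (L : ℝ) ≤ (q : ℝ) ^ ((1 - ε) * k) := Nat.floor_le (by positivity)
    calc (L : ℝ) * (1 / (q : ℝ) ^ k) ≤ (q : ℝ) ^ ((1 - ε) * k) * (1 / (q : ℝ) ^ k) :=
          mul_le_mul_of_nonneg_right h2 (by positivity)
      _ = (q : ℝ) ^ ((1 - ε) * k) * (q : ℝ) ^ (-(k : ℝ)) := by
          rw [Real.rpow_neg hq0.le, Real.rpow_natCast, one_div]
      _ = _ := by rw [← Real.rpow_add hq0]; congr 1; ring
  have hpos : 0 < (q : ℝ) ^ (-(ε * k)) := by positivity
  have h3 : ∑ j ∈ Icc 1 L, 1 / (q : ℝ) ^ k < 2 * (q : ℝ) ^ (-(ε * k)) := by linarith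
  filter_upwards [h1.eventually (gt_mem_nhds h3), eventually_gt_atTop 0] with N h4 h5
  have hN : (0 : ℝ) < N := by exact_mod_cast h5
  rw [← sum_div, div_lt_iff₀ hN] at h4
  have h6 : (num (early q d k ((q : ℝ) ^ ((1 - ε) * k))) N : ℝ) ≤ ∑ j ∈ Icc 1 L, (ret q d k j N : ℝ) := by
    have := early_le (q := q) (d := d) k ((q : ℝ) ^ ((1 - ε) * k)) N
    exact_mod_cast this
  linarith

/-- **criterion by early returns** -/
theorem early_crit {q : ℕ} (hq : 2 ≤ q) {d : ℕ → ℕ} (hd : ∀ n, d n < q) :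
    Good q d ↔ ∀ ε : ℝ, 0 < ε → ∀ K : ℕ, ∃ k ≥ K, ∀ᶠ N : ℕ in atTop,
      (num (early q d k ((q : ℝ) ^ ((1 - ε) * k))) N : ℝ) ≤ ε * N := by
  constructor
  · intro hg ε hε K
    obtain ⟨k1, hk1⟩ := eventually_atTop.1 (decay hq hε (δ := ε / 2) (by positivity))
    refine ⟨K + k1 + 1, by omega, ?_⟩
    filter_upwards [early_good hq hd hg (k := K + k1 + 1) hε] with N hN
    refine hN.trans (mul_le_mul_of_nonneg_right ?_ (Nat.cast_nonneg _))
    have h1 := hk1 (K + k1 + 1) (by omega)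
    have h2 : 0 < (q : ℝ) ^ (-(ε * ((K + k1 + 1 : ℕ) : ℝ))) := by
      have : (0 : ℝ) < q := by exact_mod_cast (by omega : 0 < q)
      positivity
    have h3 : (1 : ℝ) ≤ ((K + k1 + 1 : ℕ) : ℝ) := by exact_mod_cast (by omega : 1 ≤ K + k1 + 1)
    nlinarith
  · intro h
    by_contra hng
    obtain ⟨m, hm, a, ha, τ, hτ, hτ1, hB⟩ := biased_of_not_good (by omega) hng
    have hc0 := gap_pos hq hm hτ
    obtain ⟨k0, hk0⟩ := early_core hq hm hτ hτ1
    obtain ⟨k, hk, hev⟩ := h (min (gap q m τ) (τ / 16)) (by positivity) k0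
    have hfr := hk0 d hd a ha hB k hk
    obtain ⟨N, hN1, hN2, hN3⟩ := (hfr.and_eventually (hev.and (eventually_gt_atTop 0))).exists
    have hN : (0 : ℝ) < N := by exact_mod_cast hN3
    have hq1 : (1 : ℝ) < q := by exact_mod_cast (by omega : 1 < q)
    have h1 : (num (early q d k ((q : ℝ) ^ ((1 - gap q m τ) * k))) N : ℝ) ≤
        num (early q d k ((q : ℝ) ^ ((1 - min (gap q m τ) (τ / 16)) * k))) N := by
      have := num_mono (P := early q d k ((q : ℝ) ^ ((1 - gap q m τ) * k)))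
        (Q := early q d k ((q : ℝ) ^ ((1 - min (gap q m τ) (τ / 16)) * k))) (fun n hn => by
        obtain ⟨j, h1, h2, h3⟩ := hn
        refine ⟨j, h1, h2.trans ?_, h3⟩
        refine Real.rpow_le_rpow_of_exponent_le hq1.le ?_
        have h4 := min_le_left (gap q m τ) (τ / 16)
        exact mul_le_mul_of_nonneg_right (by linarith) (Nat.cast_nonneg _)) N
      exact_mod_cast this
    have h2 : min (gap q m τ) (τ / 16) ≤ τ / 16 := min_le_right _ _
    nlinarith

end Pool.Agent.Run7.h526.ZR
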