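import Pool.Agent.Run7.h526.ZR.Core

/-! # A biased word: exponentially few blocks have a positive proportion -/

set_option autoImplicit false

namespace Pool.Agent.Run7.h526.ZR

open Finset Filter Topology

/-- the number of `n < N` with `P n` -/
noncomputable def num (P : ℕ → Prop) (N : ℕ) : ℕ := by
  classical exact ((range N).filter P).card

open Classical in
lemma num_eq (P : ℕ → Prop) (N : ℕ) : num P N = ((range N).filter P).card := by
  unfold num
  congr!

open Classical in
lemma num_sum (P : ℕ → Prop) (N : ℕ) : num P N = ∑ n ∈ range N, if P n then 1 else 0 := by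
  rw [num_eq, card_filter]

lemma num_le (P : ℕ → Prop) (N : ℕ) : num P N ≤ N := by
  classical
  rw [num_eq]
  exact (card_filter_le _ _).trans (by simp)

lemma num_mono {P Q : ℕ → Prop} (h : ∀ n, P n → Q n) (N : ℕ) : num P N ≤ num Q N := by
  classical
  rw [num_eq, num_eq]
  exact card_le_card fun n hn => by
    rw [mem_filter] at hn ⊢
    exact ⟨hn.1, h n hn.2⟩

lemma num_shift_add (P : ℕ → Prop) (s N : ℕ) :
    num P s + num (fun n => P (s + n)) N = num P N + num (fun n => P (N + n)) s := by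
  classical
  rw [num_sum, num_sum, num_sum, num_sum, ← sum_range_add (fun n => if P n then 1 else 0) s N,
    ← sum_range_add (fun n => if P n then 1 else 0) N s, add_comm]

lemma num_shift_le (P : ℕ → Prop) (s N : ℕ) : num (fun n => P (n + s)) N ≤ num P N + s := by
  have h := num_shift_add P s N
  have h2 := num_le (fun n => P (N + n)) s
  have e : (fun n => P (n + s)) = fun n => P (s + n) := by funext n; rw [add_comm]
  rw [e]; omega

lemma num_shift_ge (P : ℕ → Prop) (s N : ℕ) : num P N ≤ num (fun n => P (n + s)) N + s := by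
  have h := num_shift_add P s N
  have h2 := num_le P s
  have e : (fun n => P (n + s)) = fun n => P (s + n) := by funext n; rw [add_comm]
  rw [e]; omega

/-- positive proportion of atypical blocks -/
lemma prop_At {q : ℕ} {d : ℕ → ℕ} (hq : 0 < q) (hd : ∀ n, d n < q) {l a : ℕ}
    {τ : ℝ} (hτ : 0 < τ) {m : ℕ} (hm : 0 < m) {N : ℕ}
    (h : τ * N < |(num (fun n => bl q d n l = a) N : ℝ) - N / (q : ℝ) ^ l|)
    (hN : (4 * (l * m : ℕ) : ℝ) ≤ τ * N) :
    τ / 4 * N ≤ num (fun n => bl q d n (l * m) ∈ At (q ^ l) a m τ) N := by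
  classical
  set B : ℝ := (q : ℝ) ^ l with hB
  have hB0 : 0 < B := by rw [hB]; positivity
  have hB1 : 1 ≤ B := by
    rw [hB]
    exact one_le_pow₀ (by exact_mod_cast hq)
  have hmR : (0 : ℝ) < m := by exact_mod_cast hm
  set G : ℕ → ℕ := fun n => cntd (q ^ l) a m (bl q d n (l * m)) with hG
  set O : ℝ := (num (fun n => bl q d n l = a) N : ℝ) with hO
  set T : ℝ := (num (fun n => bl q d n (l * m) ∈ At (q ^ l) a m τ) N : ℝ) with hT
  -- the sum of G
  have h1 : ∑ n ∈ range N, G n = ∑ j ∈ range m, num (fun n => bl q d (n + l * j) l = a) N := by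
    have : ∀ n ∈ range N, G n = ∑ j ∈ range m, if bl q d (n + l * j) l = a then 1 else 0 := by
      intro n _
      rw [hG]
      simp only
      rw [cntd_bl hq hd, card_filter]
    rw [sum_congr rfl this, sum_comm]
    refine sum_congr rfl fun j _ => ?_
    rw [num_sum]
    exact sum_congr rfl fun _ _ => by congr
  have h2 : ∀ j ∈ range m, |(num (fun n => bl q d (n + l * j) l = a) N : ℝ) - O| ≤ (l * m : ℕ) := by
    intro j hj
    have hj' : l * j ≤ l * m := Nat.mul_le_mul_left _ (mem_range.1 hj).le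
    have g1 := num_shift_le (fun n => bl q d n l = a) (l * j) N
    have g2 := num_shift_ge (fun n => bl q d n l = a) (l * j) N
    have g1' : (num (fun n => bl q d (n + l * j) l = a) N : ℝ) ≤ O + (l * m : ℕ) := by
      rw [hO]; exact_mod_cast g1.trans (by omega)
    have g2' : O ≤ (num (fun n => bl q d (n + l * j) l = a) N : ℝ) + (l * m : ℕ) := by
      rw [hO]; exact_mod_cast g2.trans (by omega)
    rw [abs_le]; constructor <;> linarith
  have h3 : |∑ n ∈ range N, (G n : ℝ) - m * O| ≤ m * (l * m : ℕ) := by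
    have e : ∑ n ∈ range N, (G n : ℝ) - m * O =
        ∑ j ∈ range m, ((num (fun n => bl q d (n + l * j) l = a) N : ℝ) - O) := by
      rw [sum_sub_distrib, sum_const, card_range, nsmul_eq_mul]
      congr 1
      exact_mod_cast h1
    rw [e]
    calc _ ≤ ∑ j ∈ range m, |(num (fun n => bl q d (n + l * j) l = a) N : ℝ) - O| :=
          abs_sum_le_sum_abs _ _
      _ ≤ ∑ j ∈ range m, ((l * m : ℕ) : ℝ) := sum_le_sum h2
      _ = _ := by rw [sum_const, card_range, nsmul_eq_mul]
  -- upper bound for the deviation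
  have h4 : |∑ n ∈ range N, ((G n : ℝ) - m / B)| ≤ τ * m / 2 * N + m * T := by
    calc _ ≤ ∑ n ∈ range N, |(G n : ℝ) - m / B| := abs_sum_le_sum_abs _ _
      _ ≤ ∑ n ∈ range N, (τ * m / 2 + m * (if bl q d n (l * m) ∈ At (q ^ l) a m τ then 1 else 0)) := by
          refine sum_le_sum fun n _ => ?_
          by_cases hn : bl q d n (l * m) ∈ At (q ^ l) a m τ
          · rw [if_pos hn, mul_one]
            have g0 : (0 : ℝ) ≤ G n := Nat.cast_nonneg _
            have g1 : (G n : ℝ) ≤ m := by exact_mod_cast cntd_le _ _ _ _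
            have g2 : 0 ≤ m / B := by positivity
            have g3 : m / B ≤ m := div_le_self hmR.le hB1
            have g4 : 0 ≤ τ * m / 2 := by positivity
            rw [abs_le]; constructor <;> linarith
          · rw [if_neg hn, mul_zero, add_zero]
            by_contra hcon
            refine hn ?_
            rw [At, mem_filter, mem_range]
            refine ⟨?_, ?_⟩
            · rw [← pow_mul]; exact bl_lt hd _ _
            · have := not_le.1 hcon
              push_cast
              exact this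
      _ = _ := by
          rw [sum_add_distrib, sum_const, card_range, nsmul_eq_mul, ← mul_sum, hT, num_sum]
          push_cast
          ring
  have h5 : ∑ n ∈ range N, ((G n : ℝ) - m / B) = ∑ n ∈ range N, (G n : ℝ) - m * O + m * (O - N / B) := by
    rw [sum_sub_distrib, sum_const, card_range, nsmul_eq_mul]
    ring
  rw [h5] at h4
  have h6 : m * |O - N / B| ≤ τ * m / 2 * N + m * T + m * (l * m : ℕ) := by
    have e : m * |O - N / B| = |m * (O - N / B)| := by rw [abs_mul, abs_of_pos hmR]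
    rw [e]
    have := abs_sub_abs_le_abs_add (m * (O - N / B)) (∑ n ∈ range N, (G n : ℝ) - m * O)
    have h7 : |m * (O - N / B)| ≤ |∑ n ∈ range N, (G n : ℝ) - m * O + m * (O - N / B)| +
        |∑ n ∈ range N, (G n : ℝ) - m * O| := by
      have := abs_sub (∑ n ∈ range N, (G n : ℝ) - m * O + m * (O - N / B))
        (∑ n ∈ range N, (G n : ℝ) - m * O)
      rwa [add_sub_cancel_left] at this
    linarith
  have h8 : |O - N / B| ≤ τ / 2 * N + T + (l * m : ℕ) := by
    have : m * |O - N / B| ≤ m * (τ / 2 * N + T + (l * m : ℕ)) := by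
      calc _ ≤ _ := h6
        _ = _ := by ring
    exact le_of_mul_le_mul_left this hmR
  linarith

/-- the atypical blocks of any length -/
noncomputable def Atk (q l a : ℕ) (τ : ℝ) (k : ℕ) : Finset ℕ :=
  (range (q ^ k)).filter fun W => W / q ^ (k % l) ∈ At (q ^ l) a (k / l) τ

lemma card_Atk {q l a : ℕ} (hq : 0 < q) (τ : ℝ) (k : ℕ) :
    (Atk q l a τ k).card ≤ (At (q ^ l) a (k / l) τ).card * q ^ (k % l) := by
  have h : Atk q l a τ k ⊆ (At (q ^ l) a (k / l) τ ×ˢ range (q ^ (k % l))).image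
      fun p => p.1 * q ^ (k % l) + p.2 := by
    intro W hW
    rw [Atk, mem_filter] at hW
    rw [mem_image]
    refine ⟨(W / q ^ (k % l), W % q ^ (k % l)), ?_, ?_⟩
    · rw [mem_product]
      exact ⟨hW.2, mem_range.2 (Nat.mod_lt _ (by positivity))⟩
    · exact Nat.div_add_mod' _ _
  calc _ ≤ _ := card_le_card h
    _ ≤ _ := card_image_le
    _ = _ := by rw [card_product, card_range]

lemma card_Atk_le {q l a : ℕ} (hq : 2 ≤ q) (hl : 1 ≤ l) (ha : a < q ^ l) {τ : ℝ} (hτ : 0 < τ)
    (hτ1 : τ ≤ 1) {k : ℕ} (hk : 64 * l / τ ^ 2 ≤ (k : ℝ)) :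
    ((Atk q l a τ k).card : ℝ) ≤ (q : ℝ) ^ ((1 - τ ^ 2 / (32 * l * Real.log q)) * k) := by
  have hq0 : (0 : ℝ) < q := by
    have : 0 < q := by omega
    exact_mod_cast this
  have hlq : 0 < Real.log q := Real.log_pos (by exact_mod_cast (by omega : 1 < q))
  have hlR : (0 : ℝ) < l := by exact_mod_cast hl
  have h1 : ((Atk q l a τ k).card : ℝ) ≤ ((At (q ^ l) a (k / l) τ).card : ℝ) * (q : ℝ) ^ (k % l) := by
    exact_mod_cast card_Atk (by omega) τ k
  have h2 := card_At ha hτ hτ1 (k / l)
  have h3 : ((Atk q l a τ k).card : ℝ) ≤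
      2 * (q : ℝ) ^ k * Real.exp (-(τ ^ 2 * ((k / l : ℕ) : ℝ) / 16)) := by
    refine h1.trans ((mul_le_mul_of_nonneg_right h2 (by positivity)).trans (le_of_eq ?_))
    have e : k = l * (k / l) + k % l := (Nat.div_add_mod k l).symm
    have e2 : (q : ℝ) ^ k = ((q ^ l : ℕ) : ℝ) ^ (k / l) * (q : ℝ) ^ (k % l) := by
      push_cast
      rw [← pow_mul, ← pow_add, ← e]
    rw [e2]
    ring
  have h4 : (k : ℝ) / l - 1 ≤ ((k / l : ℕ) : ℝ) := by
    have e : (k : ℝ) = l * ((k / l : ℕ) : ℝ) + ((k % l : ℕ) : ℝ) := by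
      exact_mod_cast (Nat.div_add_mod k l).symm
    have e2 : ((k % l : ℕ) : ℝ) ≤ l := by exact_mod_cast (Nat.mod_lt k (by omega)).le
    rw [sub_le_iff_le_add, div_le_iff₀ hlR]
    nlinarith
  refine h3.trans ?_
  have e3 : (q : ℝ) ^ ((1 - τ ^ 2 / (32 * l * Real.log q)) * k) =
      (q : ℝ) ^ k * Real.exp (-(τ ^ 2 * k / (32 * l))) := by
    rw [sub_mul, one_mul, Real.rpow_sub hq0, Real.rpow_natCast, div_eq_mul_inv,
      ← Real.rpow_neg hq0.le, Real.rpow_def_of_pos hq0]
    congr 2
    field_simp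
  rw [e3, mul_comm (2 : ℝ), mul_assoc]
  refine mul_le_mul_of_nonneg_left ?_ (by positivity)
  have h5 : (2 : ℝ) ≤ Real.exp 1 := by
    have := Real.add_one_le_exp (1 : ℝ); linarith
  calc 2 * Real.exp (-(τ ^ 2 * ((k / l : ℕ) : ℝ) / 16))
      ≤ Real.exp 1 * Real.exp (-(τ ^ 2 * ((k / l : ℕ) : ℝ) / 16)) :=
        mul_le_mul_of_nonneg_right h5 (Real.exp_pos _).le
    _ = Real.exp (1 + -(τ ^ 2 * ((k / l : ℕ) : ℝ) / 16)) := (Real.exp_add _ _).symm
    _ ≤ _ := by
        refine Real.exp_le_exp.2 ?_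
        have h6 : τ ^ 2 * (k / l - 1) ≤ τ ^ 2 * ((k / l : ℕ) : ℝ) :=
          mul_le_mul_of_nonneg_left h4 (sq_nonneg _)
        have h7 : τ ^ 2 ≤ 1 := by nlinarith
        have h8 : 64 ≤ τ ^ 2 * (k / l) := by
          rw [div_le_iff₀ (by positivity)] at hk
          have : 64 * (l : ℝ) / l ≤ (k * τ ^ 2) / l := div_le_div_of_nonneg_right hk hlR.le
          rw [mul_div_cancel_right₀ _ hlR.ne'] at this
          calc (64 : ℝ) ≤ _ := this
            _ = _ := by ring
        have e4 : τ ^ 2 * k / (32 * l) = τ ^ 2 * (k / l) / 32 := by field_simp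
        rw [e4]
        nlinarith

/-- a positive proportion of the blocks of length `k` is atypical -/
lemma prop_Atk {q : ℕ} {d : ℕ → ℕ} (hq : 0 < q) (hd : ∀ n, d n < q) {l a : ℕ} (hl : 1 ≤ l)
    {τ : ℝ} (hτ : 0 < τ) {k : ℕ} (hk : l ≤ k) {N : ℕ}
    (h : τ * N < |(num (fun n => bl q d n l = a) N : ℝ) - N / (q : ℝ) ^ l|)
    (hN : (4 * k : ℝ) ≤ τ * N) :
    τ / 4 * N ≤ num (fun n => bl q d n k ∈ Atk q l a τ k) N := by
  have hm : 0 < k / l := Nat.div_pos hk (by omega)
  have hkl : l * (k / l) ≤ k := Nat.mul_div_le k l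
  have h1 := prop_At hq hd hτ hm h (by
    refine le_trans ?_ hN
    have : ((l * (k / l) : ℕ) : ℝ) ≤ k := by exact_mod_cast hkl
    linarith)
  refine h1.trans ?_
  have h2 := num_mono (P := fun n => bl q d n (l * (k / l)) ∈ At (q ^ l) a (k / l) τ)
    (Q := fun n => bl q d n k ∈ Atk q l a τ k) (fun n hn => by
      rw [Atk, mem_filter, mem_range]
      refine ⟨bl_lt hd _ _, ?_⟩
      have e := bl_div hq hd n (l * (k / l)) (k % l)
      rw [Nat.div_add_mod] at e
      rw [e]
      exact hn) N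
  exact_mod_cast h2

end Pool.Agent.Run7.h526.ZR
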