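import Pool.Agent.Run7.h526.ZR.Code
import Pool.Agent.N915.WT.Wall
import Pool.Agent.R485.TransS.Box
import Pool.Agent.H534R3.Blk

/-! # Normal tuples: exponential sums, rational translates -/

set_option autoImplicit false

namespace Pool.Agent.Run7.h526.ZR

open Finset Filter Topology
open Pool.Agent.H534R3.UDist Pool.Agent.H534R3.Rota
open scoped Real

/-- the number of the `1 ≤ i ≤ N` at which the matrix `D` stands -/
noncomputable def cntA {b r m : ℕ} (α : Fin r → ℝ) (D : Fin r → Fin m → Fin b) (N : ℕ) : ℕ :=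
  ((Icc 1 N).filter fun i : ℕ => ∀ j : Fin r, ∀ t : Fin m,
    Int.floor (α j * (b : ℝ) ^ (i + (t : ℕ))) % (b : ℤ) = (((D j t : ℕ)) : ℤ)).card

/-- normal tuples -/
def NormalT {r : ℕ} (b : ℕ) (α : Fin r → ℝ) : Prop :=
  ∀ m : ℕ, 1 ≤ m → ∀ D : Fin r → Fin m → Fin b,
    Tendsto (fun N : ℕ => (cntA α D N : ℝ) / (N : ℝ)) atTop (𝓝 (1 / (b : ℝ) ^ (m * r)))

lemma card_Icc_shift (P : ℕ → Prop) [DecidablePred P] (N : ℕ) :
    ((Icc 1 N).filter P).card = num (fun n => P (n + 1)) N := by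
  classical
  have h : (Icc 1 N).filter P = ((range N).filter fun n => P (n + 1)).image (fun n => n + 1) := by
    ext i
    simp only [mem_filter, mem_Icc, mem_image, mem_range]
    constructor
    · rintro ⟨⟨h1, h2⟩, h3⟩
      have e : i - 1 + 1 = i := by omega
      exact ⟨i - 1, ⟨by omega, by rw [e]; exact h3⟩, e⟩
    · rintro ⟨n, hn, rfl⟩
      exact ⟨⟨by omega, by have := hn.1; omega⟩, hn.2⟩
  rw [h, card_image_of_injective _ (fun a b h => by simpa using h), num_eq]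
  congr!

lemma num_congr {P Q : ℕ → Prop} (h : ∀ n, P n ↔ Q n) (N : ℕ) : num P N = num Q N := by
  have : P = Q := by funext n; exact propext (h n)
  rw [this]

lemma cntA_dg {b r m : ℕ} (hb : 0 < b) (α : Fin r → ℝ) (D : Fin r → Fin m → Fin b) (N : ℕ) :
    cntA α D N = num (fun n => ∀ j : Fin r, ∀ t : Fin m, dg b (α j) (n + t) = D j t) N := by
  unfold cntA
  rw [card_Icc_shift]
  refine num_congr (fun n => ?_) N
  refine forall_congr' fun j => forall_congr' fun t => ?_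
  have e : n + 1 + (t : ℕ) = (n + t) + 1 := by omega
  rw [e, dg_floor hb]
  exact Int.natCast_inj

/-- in product form -/
lemma cntA_prod {b r m : ℕ} (hb : 0 < b) (α : Fin r → ℝ) (w : Fin r → ℕ → ℕ)
    (hw : ∀ j t, w j t < b) (N : ℕ) :
    cntA α (fun (j : Fin r) (t : Fin m) => (⟨w j t, hw j t⟩ : Fin b)) N =
      num (fun n => ∀ j : Fin r, bl b (dg b (α j)) n m = bl b (w j) 0 m) N := by
  rw [cntA_dg hb]
  refine num_congr (fun n => ?_) N
  refine forall_congr' fun j => ⟨fun h => bl_congr fun i hi => ?_, fun h t => ?_⟩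
  · rw [zero_add]; exact h ⟨i, hi⟩
  · have := bl_inj' hb (dg_lt hb (α j)) (hw j) h t.2
    rw [zero_add] at this
    exact this

/-- in coded form -/
lemma cntA_code {b r m : ℕ} (hb : 0 < b) (D : Fin r → Fin m → Fin b) :
    ∃ a < (b ^ r) ^ m, ∀ (α : Fin r → ℝ) (N : ℕ),
      cntA α D N = num (fun n => bl (b ^ r) (tc hb α) n m = a) N := by
  have hq : 0 < b ^ r := by positivity
  set w : ℕ → ℕ := fun t => if h : t < m then
    ((finFunctionFinEquiv fun j => D j ⟨t, h⟩ : Fin (b ^ r)) : ℕ) else 0 with hw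
  have hwlt : ∀ t, w t < b ^ r := by
    intro t
    simp only [hw]
    split_ifs
    · exact Fin.is_lt _
    · exact hq
  refine ⟨bl (b ^ r) w 0 m, bl_lt hwlt 0 m, fun α N => ?_⟩
  rw [cntA_dg hb]
  refine num_congr (fun n => ?_) N
  have key : ∀ t (ht : t < m), (tc hb α (n + t) = w t ↔ ∀ j, dg b (α j) (n + t) = D j ⟨t, ht⟩) := by
    intro t ht
    simp only [hw, dif_pos ht]
    unfold tc
    rw [← Fin.ext_iff, finFunctionFinEquiv.injective.eq_iff]
    constructor
    · intro h j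
      have := congrFun h j
      exact congrArg Fin.val this
    · intro h
      funext j
      exact Fin.ext (h j)
  constructor
  · intro h
    refine bl_congr fun t ht => ?_
    rw [zero_add]
    exact (key t ht).2 fun j => h j ⟨t, ht⟩
  · intro h j t
    have := bl_inj' hq (tc_lt hb α) hwlt h t.2
    rw [zero_add] at this
    exact (key t t.2).1 this j

/-- a tuple which is not normal has a biased word -/
lemma biased_of_not {b r : ℕ} (hb : 0 < b) {α : Fin r → ℝ} (h : ¬ NormalT b α) :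
    ∃ m : ℕ, 1 ≤ m ∧ ∃ a < (b ^ r) ^ m, ∃ τ : ℝ, 0 < τ ∧ τ ≤ 1 ∧ Biased (b ^ r) (tc hb α) m a τ := by
  unfold NormalT at h
  push Not at h
  obtain ⟨m, hm, D, hD⟩ := h
  obtain ⟨a, ha, hcount⟩ := cntA_code hb D
  rw [Metric.tendsto_atTop] at hD
  push Not at hD
  obtain ⟨ε, hε, hD⟩ := hD
  refine ⟨m, hm, a, ha, min (ε / 2) 1, by positivity, min_le_right _ _, ?_⟩
  unfold Biased
  rw [frequently_atTop]
  intro N0
  obtain ⟨N, hN1, hN2⟩ := hD (N0 + 1)
  refine ⟨N, by omega, ?_⟩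
  have hN : (0 : ℝ) < N := by exact_mod_cast (by omega : 0 < N)
  rw [Real.dist_eq, hcount] at hN2
  have e : (num (fun n => bl (b ^ r) (tc hb α) n m = a) N : ℝ) - N / (((b ^ r : ℕ) : ℝ)) ^ m =
      ((num (fun n => bl (b ^ r) (tc hb α) n m = a) N : ℝ) / N - 1 / (b : ℝ) ^ (m * r)) * N := by
    push_cast
    rw [← pow_mul, mul_comm r m]
    field_simp
  rw [e, abs_mul, abs_of_pos hN]
  have h2 : min (ε / 2) 1 ≤ ε / 2 := min_le_left _ _
  nlinarith

/-- the words of a normal tuple, in product form -/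
lemma cells_of_normal {b r : ℕ} (hb : 0 < b) {α : Fin r → ℝ} (h : NormalT b α) {m : ℕ} (hm : 1 ≤ m)
    (c : Fin r → ℕ) (hc : ∀ j, c j < b ^ m) :
    Tendsto (fun N : ℕ => (num (fun n => ∀ j : Fin r, bl b (dg b (α j)) n m = c j) N : ℝ) / (N : ℝ))
      atTop (𝓝 (1 / (b : ℝ) ^ (m * r))) := by
  have h1 : ∀ j, ∃ w : ℕ → ℕ, (∀ i, w i < b) ∧ bl b w 0 m = c j := fun j => bl_surj hb m (c j) (hc j)
  choose w hw hw2 using h1
  have h2 := h m hm (fun j t => ⟨w j t, hw j t⟩)
  refine h2.congr fun N => ?_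
  rw [cntA_prod hb α w hw]
  simp only [hw2]

/-- a tuple with the right frequencies of the coded words is normal -/
lemma normal_of_code {b r : ℕ} (hb : 0 < b) {α : Fin r → ℝ}
    (h : ∀ m : ℕ, 1 ≤ m → ∀ a < (b ^ r) ^ m,
      Tendsto (fun N : ℕ => (num (fun n => bl (b ^ r) (tc hb α) n m = a) N : ℝ) / (N : ℝ)) atTop
        (𝓝 (1 / (b : ℝ) ^ (m * r)))) : NormalT b α := by
  intro m hm D
  obtain ⟨a, ha, hcount⟩ := cntA_code hb D
  refine (h m hm a ha).congr fun N => ?_
  rw [hcount]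

lemma sum_ee_int {M : ℕ} {h : ℤ} (h0 : h ≠ 0) (hM : |h| < M) :
    ∑ p : Fin M, ee (h * ((p : ℕ) / (M : ℝ))) = 0 := by
  rw [Fin.sum_univ_eq_sum_range (fun p => ee (h * ((p : ℝ) / (M : ℝ)))) M]
  rcases lt_or_gt_of_ne h0 with h1 | h1
  · have e : (h : ℝ) = -((h.natAbs : ℕ) : ℝ) := by
      have : h = -(h.natAbs : ℤ) := by omega
      calc (h : ℝ) = ((-(h.natAbs : ℤ) : ℤ) : ℝ) := by rw [← this]
        _ = _ := by push_cast [Int.cast_neg]; simp
    rw [abs_of_neg h1] at hM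
    have h2 := Pool.Agent.N915.WT.sum_ee_frac (M := M) (s := h.natAbs) (by omega) (by omega)
    rw [← h2]
    refine sum_congr rfl fun p _ => ?_
    rw [e]; congr 1; ring
  · have e : (h : ℝ) = ((h.natAbs : ℕ) : ℝ) := by
      have : h = (h.natAbs : ℤ) := by omega
      calc (h : ℝ) = (((h.natAbs : ℤ) : ℤ) : ℝ) := by rw [← this]
        _ = _ := by simp
    rw [abs_of_pos h1] at hM
    have h2 := sum_ee_zero h.natAbs M (by omega) (by omega)
    rw [← h2]
    refine sum_congr rfl fun p _ => ?_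
    rw [e]

/-- the exponential sums of a normal tuple -/
lemma weyl_of_normal {b r : ℕ} (hb : 2 ≤ b) {α : Fin r → ℝ} (h : NormalT b α) (H : Fin r → ℤ)
    (hH : H ≠ 0) :
    Tendsto (fun N : ℕ => ‖∑ n ∈ range N, ee ((b : ℝ) ^ n * ∑ j, H j * α j)‖ / N) atTop (𝓝 0) := by
  classical
  have hb0 : 0 < b := by omega
  set L : ℝ := 2 * π * ∑ j, |(H j : ℝ)| with hL
  have hL0 : 0 ≤ L := by positivity
  obtain ⟨j0, hj0⟩ : ∃ j, H j ≠ 0 := by
    by_contra hcon
    push Not at hcon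
    exact hH (funext hcon)
  rw [Metric.tendsto_atTop]
  intro ε hε
  -- the level
  obtain ⟨m, hm1, hm2, hm3⟩ : ∃ m : ℕ, 1 ≤ m ∧ L / (b : ℝ) ^ m ≤ ε / 4 ∧ |H j0| < (b : ℤ) ^ m := by
    have hbR : (1 : ℝ) < b := by exact_mod_cast (by omega : 1 < b)
    have h1 : Tendsto (fun m : ℕ => (b : ℝ) ^ m) atTop atTop := tendsto_pow_atTop_atTop_of_one_lt hbR
    have h2 := (h1.eventually_ge_atTop (4 * L / ε)).and ((h1.eventually_gt_atTop (|H j0| : ℤ)).and
      (eventually_ge_atTop 1))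
    obtain ⟨m, h3, h4, h5⟩ := h2.exists
    refine ⟨m, h5, ?_, ?_⟩
    · rw [div_le_iff₀ (by positivity)]
      rw [div_le_iff₀ hε] at h3
      linarith
    · exact_mod_cast h4
  set M : ℕ := b ^ m with hM
  have hM0 : 0 < M := by rw [hM]; positivity
  have hMR : (0 : ℝ) < M := by exact_mod_cast hM0
  have hMb : (M : ℝ) = (b : ℝ) ^ m := by rw [hM]; push_cast; rfl
  set F : (Fin r → Fin M) → ℂ := fun c => ee (∑ j, H j * ((c j : ℕ) / (M : ℝ))) with hF
  set C : ℕ → Fin r → Fin M := fun n j => ⟨bl b (dg b (α j)) n m, bl_lt (dg_lt hb0 _) _ _⟩ with hC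
  -- the sum over the cells vanishes
  have hsum : ∑ c : Fin r → Fin M, F c = 0 := by
    have e : ∀ c : Fin r → Fin M, F c = ∏ j, ee (H j * ((c j : ℕ) / (M : ℝ))) := by
      intro c
      rw [hF]
      exact ee_sum _ _
    simp_rw [e]
    rw [← Fintype.prod_sum (fun j (p : Fin M) => ee (H j * ((p : ℕ) / (M : ℝ))))]
    exact prod_eq_zero (mem_univ j0) (sum_ee_int hj0 (by rw [hM]; push_cast; exact hm3))
  -- approximation
  have happ : ∀ n, ‖ee ((b : ℝ) ^ n * ∑ j, H j * α j) - F (C n)‖ ≤ L / (b : ℝ) ^ m := by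
    intro n
    have e1 : (b : ℝ) ^ n * ∑ j, H j * α j =
        (∑ j, H j * Int.fract (α j * (b : ℝ) ^ n)) + ((∑ j, H j * ⌊α j * (b : ℝ) ^ n⌋ : ℤ) : ℝ) := by
      push_cast
      rw [mul_sum, ← sum_add_distrib]
      refine sum_congr rfl fun j _ => ?_
      have := Int.floor_add_fract (α j * (b : ℝ) ^ n)
      linear_combination (H j : ℝ) * (-this)
    rw [e1, ee_add, ee_int, mul_one, hF]
    refine (ee_lip _ _).trans ?_
    rw [hL, mul_div_assoc]
    refine mul_le_mul_of_nonneg_left ?_ (by positivity)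
    rw [← sum_sub_distrib, sum_div]
    refine (abs_sum_le_sum_abs _ _).trans (sum_le_sum fun j _ => ?_)
    rw [← mul_sub, abs_mul, div_eq_mul_inv |(H j : ℝ)|]
    refine mul_le_mul_of_nonneg_left ?_ (abs_nonneg _)
    have h2 := bl_dg_add b (α j) n m
    have h3 := Int.fract_nonneg (α j * (b : ℝ) ^ (n + m))
    have h4 := Int.fract_lt_one (α j * (b : ℝ) ^ (n + m))
    have e2 : Int.fract (α j * (b : ℝ) ^ n) - ((C n j : ℕ) : ℝ) / (M : ℝ) =
        Int.fract (α j * (b : ℝ) ^ (n + m)) * ((b : ℝ) ^ m)⁻¹ := by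
      rw [hMb, hC]
      simp only
      have hbm : (b : ℝ) ^ m ≠ 0 := by positivity
      field_simp
      linarith
    rw [e2, abs_of_nonneg (by positivity)]
    exact mul_le_of_le_one_left (by positivity) h4.le
  -- the sum over n of F (C n)
  have hFC : ∀ N : ℕ, ∑ n ∈ range N, F (C n) =
      ∑ c : Fin r → Fin M, F c * (num (fun n => ∀ j : Fin r, bl b (dg b (α j)) n m = c j) N : ℂ) := by
    intro N
    have e : ∀ n ∈ range N, F (C n) = ∑ c : Fin r → Fin M, F c * (if C n = c then 1 else 0) := by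
      intro n _
      simp
    rw [sum_congr rfl e, sum_comm]
    refine sum_congr rfl fun c _ => ?_
    rw [← mul_sum, num_sum]
    push_cast
    congr 1
    refine sum_congr rfl fun n _ => ?_
    have : (C n = c) ↔ ∀ j : Fin r, bl b (dg b (α j)) n m = c j := by
      rw [funext_iff]
      refine forall_congr' fun j => ?_
      rw [Fin.ext_iff]
    by_cases hh : C n = c
    · rw [if_pos hh, if_pos (this.1 hh)]
    · rw [if_neg hh, if_neg (fun h => hh (this.2 h))]
  have hlim : Tendsto (fun N : ℕ => (∑ n ∈ range N, F (C n)) / (N : ℂ)) atTop (𝓝 0) := by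
    have h1 : Tendsto (fun N : ℕ => ∑ c : Fin r → Fin M, F c *
        (((num (fun n => ∀ j : Fin r, bl b (dg b (α j)) n m = c j) N : ℝ) / (N : ℝ) : ℝ) : ℂ)) atTop
        (𝓝 (∑ c : Fin r → Fin M, F c * (((1 / (b : ℝ) ^ (m * r) : ℝ)) : ℂ))) := by
      refine tendsto_finsetSum _ fun c _ => Tendsto.const_mul _ ?_
      exact (Complex.continuous_ofReal.tendsto _).comp
        (cells_of_normal hb0 h hm1 (fun j => c j) (fun j => (c j).2))
    rw [← sum_mul, hsum, zero_mul] at h1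
    refine h1.congr fun N => ?_
    rw [hFC, sum_div]
    refine sum_congr rfl fun c _ => ?_
    push_cast
    ring
  rw [Metric.tendsto_atTop] at hlim
  obtain ⟨N1, hN1⟩ := hlim (ε / 2) (by positivity)
  refine ⟨N1 + 1, fun N hN => ?_⟩
  have hNpos : (0 : ℝ) < N := by exact_mod_cast (by omega : 0 < N)
  have h1 := hN1 N (by omega)
  rw [dist_zero_right, norm_div, Complex.norm_natCast] at h1
  rw [Real.dist_eq, sub_zero, abs_of_nonneg (by positivity)]
  have h2 : ‖∑ n ∈ range N, ee ((b : ℝ) ^ n * ∑ j, H j * α j)‖ ≤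
      ‖∑ n ∈ range N, F (C n)‖ + N * (L / (b : ℝ) ^ m) := by
    have e : ∑ n ∈ range N, ee ((b : ℝ) ^ n * ∑ j, H j * α j) = ∑ n ∈ range N, F (C n) +
        ∑ n ∈ range N, (ee ((b : ℝ) ^ n * ∑ j, H j * α j) - F (C n)) := by
      rw [sum_sub_distrib]; ring
    rw [e]
    refine (norm_add_le _ _).trans (add_le_add_right ?_ _)
    refine (norm_sum_le _ _).trans ((sum_le_sum fun n _ => happ n).trans ?_)
    rw [sum_const, card_range, nsmul_eq_mul]
  rw [div_lt_iff₀ hNpos] at h1 ⊢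
  have h3 : N * (L / (b : ℝ) ^ m) ≤ N * (ε / 4) := mul_le_mul_of_nonneg_left hm2 hNpos.le
  nlinarith

/-- the exponential sums of the rational translates of a normal tuple -/
lemma weyl_translate {b r : ℕ} (hb : 2 ≤ b) {α : Fin r → ℝ} (h : NormalT b α) (ρ : Fin r → ℚ)
    (H : Fin r → ℤ) (hH : H ≠ 0) :
    Tendsto (fun N : ℕ => ‖∑ n ∈ range N, ee ((b : ℝ) ^ n * ∑ j, H j * (α j + ρ j))‖ / N)
      atTop (𝓝 0) := by
  have h1 : Weyl (fun n => (b : ℝ) ^ n * ∑ j, H j * α j) := by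
    intro k hk
    have h2 := weyl_of_normal hb h (fun j => k * H j) (fun h0 => hH (by
      funext j
      have := congrFun h0 j
      simp only [Pi.zero_apply, mul_eq_zero] at this
      rcases this with h3 | h3
      · omega
      · exact h3))
    refine h2.congr fun N => ?_
    congr 2
    refine sum_congr rfl fun n _ => ?_
    congr 1
    push_cast
    simp_rw [mul_assoc (k : ℝ)]
    rw [← mul_sum]
    ring
  have h3 := Pool.Agent.N915.WT.wall hb (ud_of_weyl _ h1) 1 (∑ j, (H j : ℚ) * ρ j) one_ne_zero 1 le_rfl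
  refine h3.congr fun N => ?_
  congr 2
  refine sum_congr rfl fun n _ => ?_
  congr 1
  push_cast
  rw [one_mul, one_mul, ← sum_add_distrib]
  congr 1
  refine sum_congr rfl fun j _ => ?_
  ring

end Pool.Agent.Run7.h526.ZR
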