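import Pool.Agent.Run7.h526.ZR.Crit
import Pool.Agent.Run7.h526.ZR.Early

/-! # One real number, near-integers -/

set_option autoImplicit false

namespace Pool.Agent.Run7.h526.ZR

open Finset Filter Topology
open Pool.Agent.H534R3.UDist Pool.Agent.H534R3.Rota
open scoped Real

/-- the number of the `1 ≤ i ≤ N` at which the word `w` stands -/
noncomputable def occ1 {b m : ℕ} (x : ℝ) (w : Fin m → Fin b) (N : ℕ) : ℕ :=
  ((range N).filter fun i : ℕ => ∀ j : Fin m,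
    ⌊x * (b : ℝ) ^ (i + 1 + (j : ℕ))⌋ % (b : ℤ) = (((w j : ℕ)) : ℤ)).card

def Normal1 (b : ℕ) (x : ℝ) : Prop := ∀ m : ℕ, 0 < m → ∀ w : Fin m → Fin b,
  Tendsto (fun N : ℕ => (occ1 x w N : ℝ) / (N : ℝ)) atTop (𝓝 (1 / (b : ℝ) ^ m))

lemma num_of_filter (P : ℕ → Prop) [DecidablePred P] (N : ℕ) : ((range N).filter P).card = num P N := by
  rw [num_eq]
  congr!

lemma occ1_eq {b m : ℕ} (hb : 0 < b) (w : Fin m → Fin b) : ∃ a < b ^ m, ∀ (x : ℝ) (N : ℕ),
    occ1 x w N = num (fun n => bl b (dg b x) n m = a) N := by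
  set w' : ℕ → ℕ := fun t => if h : t < m then (w ⟨t, h⟩ : ℕ) else 0 with hw
  have hwlt : ∀ t, w' t < b := by
    intro t
    simp only [hw]
    split_ifs
    · exact Fin.is_lt _
    · exact hb
  refine ⟨bl b w' 0 m, bl_lt hwlt 0 m, fun x N => ?_⟩
  unfold occ1
  rw [num_of_filter]
  refine num_congr (fun n => ?_) N
  have e : ∀ t : Fin m, (⌊x * (b : ℝ) ^ (n + 1 + (t : ℕ))⌋ % (b : ℤ) = (((w t : ℕ)) : ℤ)) ↔
      dg b x (n + t) = w' t := by
    intro t
    have e1 : n + 1 + (t : ℕ) = (n + t) + 1 := by omega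
    rw [e1, dg_floor hb]
    have e2 : w' t = (w t : ℕ) := by simp [hw]
    rw [e2]
    exact Int.natCast_inj
  rw [forall_congr' e]
  constructor
  · intro h
    refine bl_congr fun t ht => ?_
    rw [zero_add]
    exact h ⟨t, ht⟩
  · intro h t
    have := bl_inj' hb (dg_lt hb x) hwlt h t.2
    rwa [zero_add] at this

lemma normal1_iff {b : ℕ} (hb : 0 < b) (x : ℝ) : Normal1 b x ↔ Good b (dg b x) := by
  constructor
  · intro h m hm a ha
    obtain ⟨w, hw, hw2⟩ := bl_surj hb m a ha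
    have h1 := h m hm (fun j => ⟨w j, hw j⟩)
    refine h1.congr fun N => ?_
    congr 2
    unfold occ1
    rw [num_of_filter]
    refine num_congr (fun n => ?_) N
    have e : ∀ t : Fin m, (⌊x * (b : ℝ) ^ (n + 1 + (t : ℕ))⌋ % (b : ℤ) = ((w t : ℕ) : ℤ)) ↔
        dg b x (n + t) = w t := by
      intro t
      have e1 : n + 1 + (t : ℕ) = (n + t) + 1 := by omega
      rw [e1, dg_floor hb]
      exact Int.natCast_inj
    simp only
    rw [forall_congr' e, ← hw2]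
    constructor
    · intro h
      refine bl_congr fun t ht => ?_
      rw [zero_add]
      exact h ⟨t, ht⟩
    · intro h t
      have := bl_inj' hb (dg_lt hb x) hw h t.2
      rwa [zero_add] at this
  · intro h m hm w
    obtain ⟨a, ha, hcount⟩ := occ1_eq hb w
    refine (h m hm a ha).congr fun N => ?_
    rw [hcount]

/-- as a tuple with one coordinate -/
lemma normalT_of_good {b : ℕ} (hb : 0 < b) {x : ℝ} (h : Good b (dg b x)) :
    NormalT b (fun _ : Fin 1 => x) := by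
  intro m hm D
  obtain ⟨c, hc, hcount⟩ := cntA_blocks hb D
  have h1 := h m hm (c 0) (hc 0)
  rw [mul_one]
  refine h1.congr fun N => ?_
  rw [hcount]
  congr 2
  refine num_congr (fun n => ?_) N
  constructor
  · intro h j
    have : j = 0 := Subsingleton.elim _ _
    rw [this]; exact h
  · intro h; exact h 0

lemma ud_of_good {b : ℕ} (hb : 2 ≤ b) {x : ℝ} (h : Good b (dg b x)) : UD fun n => (b : ℝ) ^ n * x := by
  refine ud_of_weyl _ fun k hk => ?_
  have h1 := weyl_of_normal hb (normalT_of_good (by omega) h) (fun _ => (k : ℤ)) (fun h0 => by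
    have := congrFun h0 0
    simp only [Pi.zero_apply] at this
    omega)
  refine h1.congr fun N => ?_
  congr 2
  refine sum_congr rfl fun n _ => ?_
  congr 1
  simp only [univ_unique, Fin.default_eq_zero, sum_const, card_singleton, one_smul, Int.cast_natCast]
  ring

/-- the distance to the nearest integer -/
noncomputable def dist1 (y : ℝ) : ℝ := |y - round y|

/-- the number of the `n < N` such that `q b ^ n x` is nearer than `b ^ (-k)` to an integer -/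
noncomputable def near (b k : ℕ) (x : ℝ) (q : ℤ) (N : ℕ) : ℕ :=
  ((range N).filter fun n : ℕ => dist1 (q * (b : ℝ) ^ n * x) < 1 / (b : ℝ) ^ k).card

lemma dist1_le (y : ℝ) (z : ℤ) : dist1 y ≤ |y - z| := round_le y z

lemma ret_le_near {b : ℕ} (hb : 2 ≤ b) (x : ℝ) (k j N : ℕ) :
    ret b (dg b x) k j N ≤ near b k x ((b : ℤ) ^ j - 1) N := by
  have hb0 : 0 < b := by omega
  have hbk : (0 : ℝ) < (b : ℝ) ^ k := by
    have : (0 : ℝ) < b := by exact_mod_cast hb0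
    positivity
  unfold ret near
  rw [num_of_filter]
  refine num_mono (fun n hn => ?_) N
  have h1 := bl_dg_add b x n k
  have h2 := bl_dg_add b x (n + j) k
  rw [← hn] at h2
  have a1 := Int.fract_nonneg (x * (b : ℝ) ^ (n + k))
  have a2 := Int.fract_lt_one (x * (b : ℝ) ^ (n + k))
  have a3 := Int.fract_nonneg (x * (b : ℝ) ^ (n + j + k))
  have a4 := Int.fract_lt_one (x * (b : ℝ) ^ (n + j + k))
  have h3 : |(b : ℝ) ^ k * (Int.fract (x * (b : ℝ) ^ (n + j)) - Int.fract (x * (b : ℝ) ^ n))| < 1 := by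
    have e : (b : ℝ) ^ k * (Int.fract (x * (b : ℝ) ^ (n + j)) - Int.fract (x * (b : ℝ) ^ n)) =
        Int.fract (x * (b : ℝ) ^ (n + j + k)) - Int.fract (x * (b : ℝ) ^ (n + k)) := by
      rw [mul_sub, h1, h2]; ring
    rw [e, abs_lt]
    constructor <;> linarith
  rw [abs_mul, abs_of_pos hbk] at h3
  have h4 := dist1_le ((((b : ℤ) ^ j - 1 : ℤ) : ℝ) * (b : ℝ) ^ n * x)
    (⌊x * (b : ℝ) ^ (n + j)⌋ - ⌊x * (b : ℝ) ^ n⌋)
  have e2 : (((b : ℤ) ^ j - 1 : ℤ) : ℝ) * (b : ℝ) ^ n * x -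
      ((⌊x * (b : ℝ) ^ (n + j)⌋ - ⌊x * (b : ℝ) ^ n⌋ : ℤ) : ℝ) =
      Int.fract (x * (b : ℝ) ^ (n + j)) - Int.fract (x * (b : ℝ) ^ n) := by
    have e3 := Int.floor_add_fract (x * (b : ℝ) ^ (n + j))
    have e4 := Int.floor_add_fract (x * (b : ℝ) ^ n)
    push_cast
    rw [pow_add] at e3 ⊢
    linear_combination e4 - e3
  rw [e2] at h4
  rw [lt_div_iff₀ hbk]
  nlinarith

/-- near-integers of a normal number -/
lemma near_good {b : ℕ} (hb : 2 ≤ b) {x : ℝ} (h : Good b (dg b x)) {q : ℤ} (hq : q ≠ 0) {k : ℕ}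
    (hk : 1 ≤ k) {s : ℝ} (hs : 2 / (b : ℝ) ^ k < s) :
    ∀ᶠ N : ℕ in atTop, (near b k x q N : ℝ) ≤ s * N := by
  have hb0 : 0 < b := by omega
  have hbR : (2 : ℝ) ≤ b := by exact_mod_cast hb
  have hbk : (2 : ℝ) ≤ (b : ℝ) ^ k := by
    calc (2 : ℝ) ≤ b := hbR
      _ = (b : ℝ) ^ 1 := (pow_one _).symm
      _ ≤ (b : ℝ) ^ k := pow_le_pow_right₀ (by linarith) hk
  have h1 : UD fun n => (b : ℝ) ^ n * ((q : ℚ) * x + (0 : ℚ)) :=
    ud_of_weyl _ (Pool.Agent.N915.WT.wall hb (ud_of_good hb h) (q : ℚ) 0 (by exact_mod_cast hq))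
  have hle : 1 / (b : ℝ) ^ k ≤ 1 / 2 := div_le_div_of_nonneg_left (by norm_num) (by norm_num) hbk
  have hpos : 0 < 1 / (b : ℝ) ^ k := by positivity
  have h2 := h1 0 (1 / (b : ℝ) ^ k) le_rfl (by positivity) (by linarith)
  have h3 := h1 (1 - 1 / (b : ℝ) ^ k) 1 (by linarith) (by linarith) le_rfl
  have h4 := h2.add h3
  have e : 1 / (b : ℝ) ^ k - 0 + (1 - (1 - 1 / (b : ℝ) ^ k)) = 2 / (b : ℝ) ^ k := by ring
  rw [e] at h4
  filter_upwards [h4.eventually (gt_mem_nhds hs), eventually_gt_atTop 0] with N h5 h6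
  have hN : (0 : ℝ) < N := by exact_mod_cast h6
  rw [← add_div, div_lt_iff₀ hN] at h5
  refine le_trans ?_ h5.le
  unfold near
  rw [← Nat.cast_add, Nat.cast_le]
  refine le_trans (card_le_card ?_) (card_union_le _ _)
  intro n hn
  rw [mem_filter] at hn
  rw [mem_union, mem_filter, mem_filter]
  set y : ℝ := (b : ℝ) ^ n * ((q : ℚ) * x + (0 : ℚ)) with hy
  have ey : (q : ℝ) * (b : ℝ) ^ n * x = y := by
    rw [hy]; push_cast; ring
  have hn2 := hn.2
  rw [ey] at hn2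
  have hf0 := Int.fract_nonneg y
  have hf1 := Int.fract_lt_one y
  by_cases hcase : Int.fract y < 1 / (b : ℝ) ^ k
  · left
    refine ⟨hn.1, ?_, ?_⟩
    · exact hf0
    · exact hcase
  · right
    refine ⟨hn.1, ?_, hf1⟩
    by_contra hcon
    push Not at hcon hcase
    unfold dist1 at hn2
    rw [abs_sub_round_eq_min] at hn2
    rcases min_lt_iff.1 hn2 with h7 | h7
    · linarith
    · linarith

/-- **criterion by near-integers** -/
theorem near_crit {b : ℕ} (hb : 2 ≤ b) (x : ℝ) :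
    Normal1 b x ↔ ∀ ε : ℝ, 0 < ε → ∀ K : ℕ, ∃ k ≥ K, ∀ q : ℤ, q ≠ 0 → ∀ᶠ N : ℕ in atTop,
      (near b k x q N : ℝ) ≤ (b : ℝ) ^ (-((1 - ε) * k)) * N := by
  have hb0 : 0 < b := by omega
  have hbR : (0 : ℝ) < b := by exact_mod_cast hb0
  have hb1 : (1 : ℝ) < b := by exact_mod_cast (by omega : 1 < b)
  rw [normal1_iff hb0]
  constructor
  · intro hg ε hε K
    obtain ⟨k1, hk1⟩ := eventually_atTop.1 (decay hb hε (δ := 1 / 3) (by norm_num))
    refine ⟨K + k1 + 1, by omega, fun q hq => near_good hb hg hq (by omega) ?_⟩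
    set k := K + k1 + 1 with hk
    have h1 := hk1 k (by omega)
    have h2 : (1 : ℝ) ≤ k := by exact_mod_cast (by omega : 1 ≤ k)
    have h3 : 0 < (b : ℝ) ^ (-(ε * k)) := by positivity
    have h4 : (b : ℝ) ^ (-(ε * k)) ≤ 1 / 3 := by nlinarith
    have e : 1 / (b : ℝ) ^ k = (b : ℝ) ^ (-(ε * k)) * (b : ℝ) ^ (-((1 - ε) * k)) := by
      rw [← Real.rpow_add hbR, one_div, ← Real.rpow_natCast, ← Real.rpow_neg hbR.le]
      congr 1; ring
    have e2 : 2 / (b : ℝ) ^ k = 2 * (1 / (b : ℝ) ^ k) := by ring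
    rw [e2, e]
    have h5 : 0 < (b : ℝ) ^ (-((1 - ε) * k)) := by positivity
    nlinarith
  · intro h
    refine pair_crit hb (dg_lt hb0 x) fun ε hε K => ?_
    obtain ⟨k, hk, h1⟩ := h ε hε K
    refine ⟨k, hk, ?_⟩
    have h2 : ∀ᶠ N : ℕ in atTop, ∀ j ∈ Icc 1 (b ^ k), (near b k x ((b : ℤ) ^ j - 1) N : ℝ) ≤
        (b : ℝ) ^ (-((1 - ε) * k)) * N := by
      rw [eventually_all_finset]
      intro j hj
      refine h1 _ ?_
      have h3 : (2 : ℤ) ^ 1 ≤ (b : ℤ) ^ j :=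
        le_trans (pow_le_pow_left₀ (by norm_num) (by exact_mod_cast hb) 1)
          (pow_le_pow_right₀ (by exact_mod_cast hb0) (mem_Icc.1 hj).1)
      omega
    filter_upwards [h2] with N hN
    calc ((∑ j ∈ Icc 1 (b ^ k), ret b (dg b x) k j N : ℕ) : ℝ)
        = ∑ j ∈ Icc 1 (b ^ k), (ret b (dg b x) k j N : ℝ) := by push_cast; rfl
      _ ≤ ∑ j ∈ Icc 1 (b ^ k), (b : ℝ) ^ (-((1 - ε) * k)) * N := by
          refine sum_le_sum fun j hj => le_trans ?_ (hN j hj)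
          exact_mod_cast ret_le_near hb x k j N
      _ = (b : ℝ) ^ (k : ℝ) * (b : ℝ) ^ (-((1 - ε) * k)) * N := by
          rw [sum_const, Nat.card_Icc, nsmul_eq_mul, Real.rpow_natCast]
          push_cast
          ring
      _ = (b : ℝ) ^ (ε * k) * N := by
          rw [← Real.rpow_add hbR]; congr 2; ring

/-- the gap for near-integers -/
theorem near_gap {b m : ℕ} (hb : 2 ≤ b) (hm : 1 ≤ m) {τ : ℝ} (hτ : 0 < τ) (hτ1 : τ ≤ 1) :
    ∃ k0 : ℕ, ∀ (x : ℝ) (w : Fin m → Fin b),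
      (∃ᶠ N : ℕ in atTop, τ * N < |(occ1 x w N : ℝ) - N / (b : ℝ) ^ m|) →
      ∀ k ≥ k0, ∃ j : ℕ, 1 ≤ j ∧ j ≤ b ^ k ∧ ∃ᶠ N : ℕ in atTop,
        (b : ℝ) ^ (-((1 - τ ^ 2 / (64 * m * Real.log b)) * k)) * N ≤ ret b (dg b x) k j N := by
  have hb0 : 0 < b := by omega
  have hbR : (0 : ℝ) < b := by exact_mod_cast hb0
  obtain ⟨k0, hk0⟩ := rep_core hb hm hτ hτ1
  refine ⟨k0, fun x w hw k hk => ?_⟩
  obtain ⟨a, ha, hcount⟩ := occ1_eq hb0 w
  have hB : Biased b (dg b x) m a τ := by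
    refine hw.mono fun N hN => ?_
    rw [hcount] at hN
    exact hN
  have h1 := hk0 (dg b x) (dg_lt hb0 x) a ha hB k hk
  have h2 : ∃ᶠ N : ℕ in atTop, ∃ j ∈ Icc 1 (b ^ k),
      (b : ℝ) ^ (-((1 - gap b m τ) * k)) * N ≤ ret b (dg b x) k j N := by
    refine h1.mono fun N hN => ?_
    by_contra hcon
    push Not at hcon
    have h3 : ((∑ j ∈ Icc 1 (b ^ k), ret b (dg b x) k j N : ℕ) : ℝ) <
        (b : ℝ) ^ (gap b m τ * k) * N := by
      calc ((∑ j ∈ Icc 1 (b ^ k), ret b (dg b x) k j N : ℕ) : ℝ)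
          = ∑ j ∈ Icc 1 (b ^ k), (ret b (dg b x) k j N : ℝ) := by push_cast; rfl
        _ < ∑ j ∈ Icc 1 (b ^ k), (b : ℝ) ^ (-((1 - gap b m τ) * k)) * N := by
            refine sum_lt_sum_of_nonempty ?_ hcon
            exact ⟨1, mem_Icc.2 ⟨le_rfl, Nat.one_le_pow _ _ hb0⟩⟩
        _ = (b : ℝ) ^ (k : ℝ) * (b : ℝ) ^ (-((1 - gap b m τ) * k)) * N := by
            rw [sum_const, Nat.card_Icc, nsmul_eq_mul, Real.rpow_natCast]
            push_cast
            ring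
        _ = _ := by
            rw [← Real.rpow_add hbR]; congr 2; ring
    linarith
  obtain ⟨j, hj, hfr⟩ := freq_pigeon _ _ h2
  exact ⟨j, (mem_Icc.1 hj).1, (mem_Icc.1 hj).2, hfr⟩

end Pool.Agent.Run7.h526.ZR
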