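import Pool.Agent.Run7.h526.ZR.Freq

/-! # The two pigeonhole arguments -/

set_option autoImplicit false

namespace Pool.Agent.Run7.h526.ZR

open Finset Filter Topology

lemma freq_pigeon {ι : Type} (s : Finset ι) (P : ι → ℕ → Prop)
    (h : ∃ᶠ N in atTop, ∃ i ∈ s, P i N) : ∃ i ∈ s, ∃ᶠ N in atTop, P i N := by
  by_contra hcon
  have h1 : ∀ i ∈ s, ∀ᶠ N in atTop, ¬ P i N := fun i hi => by
    by_contra h2
    exact hcon ⟨i, hi, h2⟩
  have h2 : ∀ᶠ N in atTop, ∀ i ∈ s, ¬ P i N := (eventually_all_finset s).2 h1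
  exact h (h2.mono fun N hN => by
    rintro ⟨i, hi, hP⟩
    exact hN i hi hP)

/-- a word that is not as frequent as it should be -/
def Biased (q : ℕ) (d : ℕ → ℕ) (l a : ℕ) (τ : ℝ) : Prop :=
  ∃ᶠ N : ℕ in atTop, τ * N < |(num (fun n => bl q d n l = a) N : ℝ) - N / (q : ℝ) ^ l|

/-- the constant of the gap -/
noncomputable def gap (q l : ℕ) (τ : ℝ) : ℝ := τ ^ 2 / (64 * l * Real.log q)

lemma gap_pos {q l : ℕ} (hq : 2 ≤ q) (hl : 1 ≤ l) {τ : ℝ} (hτ : 0 < τ) : 0 < gap q l τ := by
  have hlq : 0 < Real.log q := Real.log_pos (by exact_mod_cast (by omega : 1 < q))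
  have hlR : (0 : ℝ) < l := by exact_mod_cast hl
  unfold gap
  positivity

lemma decay {q : ℕ} (hq : 2 ≤ q) {c : ℝ} (hc : 0 < c) {δ : ℝ} (hδ : 0 < δ) :
    ∀ᶠ k : ℕ in atTop, (k : ℝ) * (q : ℝ) ^ (-(c * k)) ≤ δ := by
  have hq0 : (0 : ℝ) < q := by
    have : 0 < q := by omega
    exact_mod_cast this
  have hq1 : (1 : ℝ) < q := by exact_mod_cast (by omega : 1 < q)
  have hr : |(q : ℝ) ^ (-c)| < 1 := by
    rw [abs_of_pos (by positivity)]
    exact Real.rpow_lt_one_of_one_lt_of_neg hq1 (by linarith)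
  have h := tendsto_pow_const_mul_const_pow_of_abs_lt_one 1 hr
  have h2 : ∀ᶠ k : ℕ in atTop, (k : ℝ) ^ 1 * ((q : ℝ) ^ (-c)) ^ k < δ :=
    h.eventually (gt_mem_nhds hδ)
  filter_upwards [h2] with k hk
  rw [pow_one, ← Real.rpow_natCast, ← Real.rpow_mul hq0.le, neg_mul] at hk
  exact hk.le

/-- a biased word: some block stands, in one class of places, much more often than it should -/
theorem trans_core {q : ℕ} (hq : 2 ≤ q) {l : ℕ} (hl : 1 ≤ l) {τ : ℝ} (hτ : 0 < τ) (hτ1 : τ ≤ 1) :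
    ∃ k0 : ℕ, ∀ d : ℕ → ℕ, (∀ n, d n < q) → ∀ a < q ^ l, Biased q d l a τ →
      ∀ k ≥ k0, ∃ W < q ^ (k + 2), ∃ i < k + 2, ∃ᶠ N : ℕ in atTop,
        (q : ℝ) ^ (-((1 - gap q l τ) * k)) * N ≤
          num (fun n => bl q d n (k + 2) = W ∧ n % (k + 2) = i) N := by
  have hq0 : (0 : ℝ) < q := by
    have : 0 < q := by omega
    exact_mod_cast this
  have hq1 : (1 : ℝ) < q := by exact_mod_cast (by omega : 1 < q)
  set c := gap q l τ with hc
  have hc0 : 0 < c := gap_pos hq hl hτ
  obtain ⟨k1, hk1⟩ := eventually_atTop.1 (decay hq hc0 (δ := τ / (4 * q ^ 2)) (by positivity))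
  obtain ⟨k2, hk2⟩ := exists_nat_ge (64 * l / τ ^ 2)
  refine ⟨k1 + k2 + l, fun d hd a ha hb k hk => ?_⟩
  have hK1 : k1 ≤ k + 2 := by omega
  have hK2 : 64 * l / τ ^ 2 ≤ ((k + 2 : ℕ) : ℝ) :=
    hk2.trans (by exact_mod_cast (by omega : k2 ≤ k + 2))
  have hKl : l ≤ k + 2 := by omega
  set K := k + 2 with hK
  have hKR : (0 : ℝ) < K := by rw [hK]; positivity
  set A := Atk q l a τ K with hA
  have hcard : (A.card : ℝ) ≤ (q : ℝ) ^ ((1 - 2 * c) * K) := by
    have h := card_Atk_le hq hl ha hτ hτ1 hK2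
    have e : τ ^ 2 / (32 * l * Real.log q) = 2 * c := by
      rw [hc, gap]; ring
    rw [e] at h
    exact h
  have hdec := hk1 K hK1
  -- the frequency
  have h1 : ∃ᶠ N : ℕ in atTop, ∃ p ∈ A ×ˢ range K,
      (q : ℝ) ^ (-((1 - c) * k)) * N ≤ num (fun n => bl q d n K = p.1 ∧ n % K = p.2) N := by
    have h2 : ∀ᶠ N : ℕ in atTop, (4 * K : ℝ) ≤ τ * N := by
      have : Tendsto (fun N : ℕ => τ * (N : ℝ)) atTop atTop :=
        tendsto_natCast_atTop_atTop.const_mul_atTop hτ
      exact this.eventually_ge_atTop _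
    refine (hb.and_eventually h2).mono ?_
    rintro N ⟨hN1, hN2⟩
    have h3 := prop_Atk (by omega : 0 < q) hd hl hτ hKl hN1 hN2
    by_contra hcon
    push Not at hcon
    have h4 : num (fun n => bl q d n K ∈ A) N =
        ∑ p ∈ A ×ˢ range K, num (fun n => bl q d n K = p.1 ∧ n % K = p.2) N := by
      classical
      simp_rw [num_sum]
      rw [sum_comm]
      refine sum_congr rfl fun n _ => ?_
      by_cases hn : bl q d n K ∈ A
      · rw [if_pos hn, sum_eq_single_of_mem (bl q d n K, n % K)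
          (by rw [mem_product]; exact ⟨hn, mem_range.2 (Nat.mod_lt _ (by omega))⟩)]
        · simp
        · rintro ⟨p1, p2⟩ _ hp
          rw [if_neg]
          rintro ⟨h1, h2⟩
          exact hp (Prod.ext h1.symm h2.symm)
      · rw [if_neg hn]
        symm
        refine sum_eq_zero ?_
        rintro ⟨p1, p2⟩ hp
        rw [if_neg]
        rintro ⟨h1, h2⟩
        exact hn (by rw [h1]; exact (mem_product.1 hp).1)
    have hN0 : (0 : ℝ) < N := by
      have : 0 < τ * (N : ℝ) := lt_of_lt_of_le (by positivity) hN2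
      exact (pos_iff_pos_of_mul_pos this).1 hτ
    have h3' : 0 < num (fun n => bl q d n K ∈ A) N := by
      have : (0 : ℝ) < num (fun n => bl q d n K ∈ A) N := lt_of_lt_of_le (by positivity) h3
      exact_mod_cast this
    have hne : (A ×ˢ range K).Nonempty := by
      rw [nonempty_iff_ne_empty]
      intro he
      rw [h4, he, sum_empty] at h3'
      omega
    have h5 : (num (fun n => bl q d n K ∈ A) N : ℝ) <
        (A.card * K : ℝ) * ((q : ℝ) ^ (-((1 - c) * k)) * N) := by
      rw [h4]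
      push_cast
      calc _ < ∑ p ∈ A ×ˢ range K, (q : ℝ) ^ (-((1 - c) * k)) * N :=
            sum_lt_sum_of_nonempty hne hcon
        _ = _ := by
            rw [sum_const, card_product, card_range, nsmul_eq_mul]
            push_cast
            ring
    have h6 : (A.card * K : ℝ) * ((q : ℝ) ^ (-((1 - c) * k)) * N) ≤ τ / 4 * N := by
      have h7 : (A.card * K : ℝ) * (q : ℝ) ^ (-((1 - c) * k)) ≤ τ / 4 := by
        have e1 : (q : ℝ) ^ (-((1 - c) * k)) = (q : ℝ) ^ (-((1 - c) * K)) * (q : ℝ) ^ (2 * (1 - c)) := by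
          rw [← Real.rpow_add hq0]
          congr 1
          rw [hK]; push_cast; ring
        have e2 : (q : ℝ) ^ (2 * (1 - c)) ≤ (q : ℝ) ^ 2 := by
          calc (q : ℝ) ^ (2 * (1 - c)) ≤ (q : ℝ) ^ (2 : ℝ) :=
                Real.rpow_le_rpow_of_exponent_le hq1.le (by linarith)
            _ = (q : ℝ) ^ 2 := by exact_mod_cast Real.rpow_natCast (q : ℝ) 2
        have e3 : (q : ℝ) ^ ((1 - 2 * c) * K) * (q : ℝ) ^ (-((1 - c) * K)) =
            (q : ℝ) ^ (-(c * K)) := by
          rw [← Real.rpow_add hq0]; congr 1; ring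
        calc (A.card * K : ℝ) * (q : ℝ) ^ (-((1 - c) * k))
            ≤ ((q : ℝ) ^ ((1 - 2 * c) * K) * K) *
              ((q : ℝ) ^ (-((1 - c) * K)) * (q : ℝ) ^ 2) := by
              rw [e1]
              gcongr
          _ = (K * (q : ℝ) ^ (-(c * K))) * (q : ℝ) ^ 2 := by rw [← e3]; ring
          _ ≤ τ / (4 * q ^ 2) * (q : ℝ) ^ 2 := mul_le_mul_of_nonneg_right hdec (by positivity)
          _ = τ / 4 := by field_simp
      calc _ = (A.card * K : ℝ) * (q : ℝ) ^ (-((1 - c) * k)) * N := by ring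
        _ ≤ _ := mul_le_mul_of_nonneg_right h7 hN0.le
    linarith
  obtain ⟨p, hp, hfr⟩ := freq_pigeon _ _ h1
  rw [mem_product] at hp
  refine ⟨p.1, ?_, p.2, mem_range.1 hp.2, hfr⟩
  have := (mem_filter.1 hp.1).1
  exact mem_range.1 this

/-- equal values -/
lemma collision (f : ℕ → ℕ) (A : Finset ℕ) (J : ℕ) :
    (∑ i ∈ range J, if f i ∈ A then 1 else 0) ^ 2 ≤
      A.card * ∑ i ∈ range J, ∑ i' ∈ range J, if f i = f i' then 1 else 0 := by
  have h1 : (∑ i ∈ range J, if f i ∈ A then 1 else 0) =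
      ∑ W ∈ A, ∑ i ∈ range J, if f i = W then 1 else 0 := by
    rw [sum_comm]
    refine sum_congr rfl fun i _ => ?_
    rw [sum_ite_eq]
  rw [h1]
  refine (sq_sum_le_card_mul_sum_sq).trans (Nat.mul_le_mul_left _ ?_)
  have h2 : ∀ W ∈ A, (∑ i ∈ range J, if f i = W then 1 else 0) ^ 2 =
      ∑ i ∈ range J, ∑ i' ∈ range J, if f i = W ∧ f i' = W then 1 else 0 := by
    intro W _
    rw [sq, sum_mul_sum]
    refine sum_congr rfl fun i _ => sum_congr rfl fun i' _ => ?_
    by_cases h1 : f i = W <;> by_cases h2 : f i' = W <;> simp [h1, h2]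
  rw [sum_congr rfl h2, sum_comm]
  refine sum_le_sum fun i _ => ?_
  rw [sum_comm]
  refine sum_le_sum fun i' _ => ?_
  by_cases h : f i = f i'
  · rw [if_pos h]
    calc _ ≤ ∑ W ∈ A, if f i = W then 1 else 0 := by
          refine sum_le_sum fun W _ => ?_
          by_cases h1 : f i = W
          · rw [if_pos h1]; split_ifs <;> omega
          · rw [if_neg (fun hh => h1 hh.1), if_neg h1]
      _ ≤ 1 := by
          rw [sum_ite_eq]; split_ifs <;> omega
  · rw [if_neg h]
    refine le_of_eq (sum_eq_zero fun W _ => ?_)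
    rw [if_neg]
    rintro ⟨h1, h2⟩
    exact h (h1.trans h2.symm)

/-- the number of `n < N` whose block of length `k` stands again `j` places later -/
noncomputable def ret (q : ℕ) (d : ℕ → ℕ) (k j N : ℕ) : ℕ :=
  num (fun n => bl q d n k = bl q d (n + j) k) N

lemma pair_row (R : ℕ → ℕ) (J i : ℕ) (hi : i < J) (c N : ℕ) (g : ℕ → ℕ)
    (h0 : g i ≤ N) (h1 : ∀ i' < i, g i' ≤ R (i - i') + c) (h2 : ∀ i' < J, i < i' → g i' ≤ R (i' - i) + c) :
    ∑ i' ∈ range J, g i' ≤ N + 2 * ∑ j ∈ Icc 1 J, R j + J * c := by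
  have h3 : ∑ i' ∈ range J, g i' = ∑ i' ∈ range i, g i' + (g i + ∑ i' ∈ Ico (i + 1) J, g i') := by
    rw [range_eq_Ico, ← sum_Ico_consecutive g (Nat.zero_le i) hi.le, ← range_eq_Ico,
      sum_eq_sum_Ico_succ_bot hi]
  have h4 : ∑ i' ∈ range i, g i' ≤ ∑ j ∈ Icc 1 J, R j + i * c := by
    calc _ ≤ ∑ i' ∈ range i, (R (i - i') + c) := sum_le_sum fun i' h => h1 i' (mem_range.1 h)
      _ = ∑ i' ∈ range i, R (i - i') + i * c := by
          rw [sum_add_distrib, sum_const, card_range, smul_eq_mul]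
      _ ≤ _ := by
          refine Nat.add_le_add_right ?_ _
          rw [← sum_image (f := R) (g := fun i' => i - i') (s := range i) (by
            intro a ha b hb hab
            have ha' := mem_range.1 (mem_coe.1 ha)
            have hb' := mem_range.1 (mem_coe.1 hb)
            simp only at hab
            omega)]
          refine sum_le_sum_of_subset ?_
          intro j hj
          obtain ⟨i', hi', rfl⟩ := mem_image.1 hj
          have := mem_range.1 hi'
          rw [mem_Icc]; omega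
  have h5 : ∑ i' ∈ Ico (i + 1) J, g i' ≤ ∑ j ∈ Icc 1 J, R j + (J - (i + 1)) * c := by
    calc _ ≤ ∑ i' ∈ Ico (i + 1) J, (R (i' - i) + c) := sum_le_sum fun i' h => by
          have := mem_Ico.1 h
          exact h2 i' (by omega) (by omega)
      _ = ∑ i' ∈ Ico (i + 1) J, R (i' - i) + (J - (i + 1)) * c := by
          rw [sum_add_distrib, sum_const, Nat.card_Ico, smul_eq_mul]
      _ ≤ _ := by
          refine Nat.add_le_add_right ?_ _
          rw [← sum_image (f := R) (g := fun i' => i' - i) (s := Ico (i + 1) J) (by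
            intro a ha b hb hab
            have ha' := mem_Ico.1 (mem_coe.1 ha)
            have hb' := mem_Ico.1 (mem_coe.1 hb)
            simp only at hab
            omega)]
          refine sum_le_sum_of_subset ?_
          intro j hj
          obtain ⟨i', hi', rfl⟩ := mem_image.1 hj
          have := mem_Ico.1 hi'
          rw [mem_Icc]; omega
  have h6 : i * c + (J - (i + 1)) * c ≤ J * c := by
    rw [← add_mul]
    exact Nat.mul_le_mul_right _ (by omega)
  rw [h3]
  omega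

/-- the sum of the numbers of equal pairs -/
lemma pair_total {q : ℕ} {d : ℕ → ℕ} (k J N : ℕ) :
    ∑ n ∈ range N, ∑ i ∈ range J, ∑ i' ∈ range J,
      (if bl q d (n + i) k = bl q d (n + i') k then 1 else 0) ≤
      J * (N + 2 * ∑ j ∈ Icc 1 J, ret q d k j N + J * J) := by
  classical
  rw [sum_comm]
  have h : ∀ i ∈ range J, ∑ n ∈ range N, ∑ i' ∈ range J,
      (if bl q d (n + i) k = bl q d (n + i') k then 1 else 0) ≤
      N + 2 * ∑ j ∈ Icc 1 J, ret q d k j N + J * J := by
    intro i hi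
    rw [sum_comm]
    have hi' := mem_range.1 hi
    refine pair_row (fun j => ret q d k j N) J i hi' J N
      (fun i' => ∑ n ∈ range N, if bl q d (n + i) k = bl q d (n + i') k then 1 else 0) ?_ ?_ ?_
    · simp
    · intro i' hii
      have e : (∑ n ∈ range N, if bl q d (n + i) k = bl q d (n + i') k then 1 else 0) =
          num (fun n => bl q d (n + i') k = bl q d ((n + i') + (i - i')) k) N := by
        rw [num_sum]
        refine sum_congr rfl fun n _ => ?_
        have e2 : n + i' + (i - i') = n + i := by omega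
        rw [e2]
        by_cases hh : bl q d (n + i) k = bl q d (n + i') k
        · rw [if_pos hh, if_pos hh.symm]
        · rw [if_neg hh, if_neg (fun h => hh h.symm)]
      rw [e]
      exact (num_shift_le (fun n => bl q d n k = bl q d (n + (i - i')) k) i' N).trans
        (Nat.add_le_add_left (by omega) _)
    · intro i' hiJ hii
      have e : (∑ n ∈ range N, if bl q d (n + i) k = bl q d (n + i') k then 1 else 0) =
          num (fun n => bl q d (n + i) k = bl q d ((n + i) + (i' - i)) k) N := by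
        rw [num_sum]
        refine sum_congr rfl fun n _ => ?_
        have e2 : n + i + (i' - i) = n + i' := by omega
        rw [e2]
        congr
      rw [e]
      exact (num_shift_le (fun n => bl q d n k = bl q d (n + (i' - i)) k) i N).trans
        (Nat.add_le_add_left (by omega) _)
  calc _ ≤ ∑ i ∈ range J, (N + 2 * ∑ j ∈ Icc 1 J, ret q d k j N + J * J) := sum_le_sum h
    _ = _ := by rw [sum_const, card_range, smul_eq_mul]

/-- the basic inequality -/
lemma ret_ineq {q : ℕ} {d : ℕ → ℕ} (A : Finset ℕ) (k J N : ℕ)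
    (hT : J ≤ num (fun n => bl q d n k ∈ A) N) :
    (J * (num (fun n => bl q d n k ∈ A) N - J)) ^ 2 ≤
      N * (A.card * (J * (N + 2 * ∑ j ∈ Icc 1 J, ret q d k j N + J * J))) := by
  classical
  set T := num (fun n => bl q d n k ∈ A) N with hTd
  have h1 : J * (T - J) ≤ ∑ n ∈ range N, ∑ i ∈ range J, if bl q d (n + i) k ∈ A then 1 else 0 := by
    rw [sum_comm]
    calc J * (T - J) = ∑ i ∈ range J, (T - J) := by rw [sum_const, card_range, smul_eq_mul]
      _ ≤ _ := by
          refine sum_le_sum fun i hi => ?_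
          have h2 := num_shift_ge (fun n => bl q d n k ∈ A) i N
          have h3 := mem_range.1 hi
          have e : (∑ n ∈ range N, if bl q d (n + i) k ∈ A then 1 else 0) =
              num (fun n => bl q d (n + i) k ∈ A) N := by
            rw [num_sum]
            refine sum_congr rfl fun n _ => ?_
            congr
          rw [e]
          omega
  calc (J * (T - J)) ^ 2
      ≤ (∑ n ∈ range N, ∑ i ∈ range J, if bl q d (n + i) k ∈ A then 1 else 0) ^ 2 :=
        Nat.pow_le_pow_left h1 2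
    _ ≤ (range N).card * ∑ n ∈ range N,
          (∑ i ∈ range J, if bl q d (n + i) k ∈ A then 1 else 0) ^ 2 := sq_sum_le_card_mul_sum_sq
    _ ≤ N * ∑ n ∈ range N, A.card * ∑ i ∈ range J, ∑ i' ∈ range J,
          (if bl q d (n + i) k = bl q d (n + i') k then 1 else 0) := by
        rw [card_range]
        exact Nat.mul_le_mul_left _ (sum_le_sum fun n _ => collision (fun i => bl q d (n + i) k) A J)
    _ ≤ _ := by
        rw [← mul_sum]
        exact Nat.mul_le_mul_left _ (Nat.mul_le_mul_left _ (pair_total k J N))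

/-- a biased word: the blocks of length `k` return, in the next `q ^ k` places,
exponentially more often than they should -/
theorem rep_core {q : ℕ} (hq : 2 ≤ q) {l : ℕ} (hl : 1 ≤ l) {τ : ℝ} (hτ : 0 < τ) (hτ1 : τ ≤ 1) :
    ∃ k0 : ℕ, ∀ d : ℕ → ℕ, (∀ n, d n < q) → ∀ a < q ^ l, Biased q d l a τ →
      ∀ k ≥ k0, ∃ᶠ N : ℕ in atTop,
        (q : ℝ) ^ (gap q l τ * k) * N ≤ ((∑ j ∈ Icc 1 (q ^ k), ret q d k j N : ℕ) : ℝ) := by
  have hq0 : (0 : ℝ) < q := by
    have : 0 < q := by omega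
    exact_mod_cast this
  have hq1 : (1 : ℝ) < q := by exact_mod_cast (by omega : 1 < q)
  set c := gap q l τ with hc
  have hc0 : 0 < c := gap_pos hq hl hτ
  obtain ⟨k1, hk1⟩ := eventually_atTop.1 (decay hq hc0 (δ := τ ^ 2 / 512) (by positivity))
  obtain ⟨k2, hk2⟩ := exists_nat_ge (64 * l / τ ^ 2)
  refine ⟨k1 + k2 + l, fun d hd a ha hb k hk => ?_⟩
  have hK2 : 64 * l / τ ^ 2 ≤ (k : ℝ) :=
    hk2.trans (by exact_mod_cast (by omega : k2 ≤ k))
  have hKl : l ≤ k := by omega
  have hk1' : 1 ≤ k := by omega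
  have hkR : (1 : ℝ) ≤ k := by exact_mod_cast hk1'
  set A := Atk q l a τ k with hA
  have hcard : (A.card : ℝ) ≤ (q : ℝ) ^ ((1 - 2 * c) * k) := by
    have h := card_Atk_le hq hl ha hτ hτ1 hK2
    have e : τ ^ 2 / (32 * l * Real.log q) = 2 * c := by
      rw [hc, gap]; ring
    rw [e] at h
    exact h
  have hdec : (q : ℝ) ^ (-(c * k)) ≤ τ ^ 2 / 512 := by
    have h := hk1 k (by omega)
    have h2 : 0 < (q : ℝ) ^ (-(c * k)) := by positivity
    nlinarith
  set J : ℕ := q ^ k with hJ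
  have hJ0 : (0 : ℝ) < (J : ℝ) := by rw [hJ]; push_cast; positivity
  set E : ℝ := (q : ℝ) ^ (c * k) with hE
  have hE1 : 1 ≤ E := by
    rw [hE]
    exact Real.one_le_rpow hq1.le (by positivity)
  have hAE : (A.card : ℝ) * E ≤ J * (τ ^ 2 / 512) := by
    calc (A.card : ℝ) * E ≤ (q : ℝ) ^ ((1 - 2 * c) * k) * (q : ℝ) ^ (c * k) :=
          mul_le_mul_of_nonneg_right hcard (by positivity)
      _ = (q : ℝ) ^ (k : ℝ) * (q : ℝ) ^ (-(c * k)) := by
          rw [← Real.rpow_add hq0, ← Real.rpow_add hq0]; congr 1; ring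
      _ ≤ (q : ℝ) ^ (k : ℝ) * (τ ^ 2 / 512) := mul_le_mul_of_nonneg_left hdec (by positivity)
      _ = _ := by rw [hJ, Real.rpow_natCast]; push_cast; ring
  have h2 : ∀ᶠ N : ℕ in atTop, (8 * J : ℝ) ≤ τ * N := by
    have : Tendsto (fun N : ℕ => τ * (N : ℝ)) atTop atTop :=
      tendsto_natCast_atTop_atTop.const_mul_atTop hτ
    exact this.eventually_ge_atTop _
  have h3 : ∀ᶠ N : ℕ in atTop, (4 * k : ℝ) ≤ τ * N := by
    have : Tendsto (fun N : ℕ => τ * (N : ℝ)) atTop atTop :=
      tendsto_natCast_atTop_atTop.const_mul_atTop hτ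
    exact this.eventually_ge_atTop _
  refine (hb.and_eventually ((h2.and h3).and (eventually_ge_atTop (J * J)))).mono ?_
  rintro N ⟨hN1, ⟨hN2, hN3⟩, hN4⟩
  have h4 := prop_Atk (by omega : 0 < q) hd hl hτ hKl hN1 hN3
  by_contra hcon
  have hcon' := not_le.1 hcon
  set S : ℕ := ∑ j ∈ Icc 1 J, ret q d k j N with hS
  set T : ℕ := num (fun n => bl q d n k ∈ A) N with hT
  have hNJ : ((J * J : ℕ) : ℝ) ≤ N := by exact_mod_cast hN4
  have hN0 : (0 : ℝ) < N := by
    have : (0 : ℝ) < ((J * J : ℕ) : ℝ) := by push_cast; positivity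
    linarith
  have hTJ : (J : ℝ) + τ / 8 * N ≤ T := by linarith
  have hTJ' : J ≤ T := by
    have : (J : ℝ) ≤ T := by
      have : 0 ≤ τ / 8 * N := by positivity
      linarith
    exact_mod_cast this
  have h5 := ret_ineq (q := q) (d := d) A k J N (by rw [← hT]; exact hTJ')
  rw [← hS, ← hT] at h5
  have h6 : ((J : ℝ) * ((T : ℝ) - J)) ^ 2 ≤
      N * (A.card * (J * (N + 2 * S + J * J))) := by
    have : (((J * (T - J)) ^ 2 : ℕ) : ℝ) ≤ ((N * (A.card * (J * (N + 2 * S + J * J))) : ℕ) : ℝ) := by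
      exact_mod_cast h5
    push_cast [Nat.cast_sub hTJ'] at this
    exact this
  have h7 : (J * (τ / 8 * N)) ^ 2 ≤ ((J : ℝ) * ((T : ℝ) - J)) ^ 2 := by
    have : 0 ≤ J * (τ / 8 * N) := by positivity
    refine pow_le_pow_left₀ this (mul_le_mul_of_nonneg_left (by linarith) hJ0.le) 2
  have h8 : N * (A.card * (J * (N + 2 * S + J * J))) ≤ N * (A.card * (J * (4 * (E * N)))) := by
    have h9 : (N : ℝ) + 2 * S + J * J ≤ 4 * (E * N) := by
      have e1 : (J : ℝ) * J ≤ N := by push_cast at hNJ; exact hNJ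
      have e2 : (N : ℝ) ≤ E * N := le_mul_of_one_le_left hN0.le hE1
      linarith
    gcongr
  have h10 : N * (A.card * (J * (4 * (E * N)))) ≤ 4 * (J * (τ ^ 2 / 512)) * (J * N ^ 2) := by
    calc _ = 4 * (A.card * E) * (J * (N : ℝ) ^ 2) := by ring
      _ ≤ _ := by gcongr
  have h11 : (J * (τ / 8 * N)) ^ 2 ≤ 4 * (J * (τ ^ 2 / 512)) * (J * (N : ℝ) ^ 2) :=
    h7.trans (h6.trans (h8.trans h10))
  have h12 : (0 : ℝ) < τ ^ 2 * (J : ℝ) ^ 2 * (N : ℝ) ^ 2 := by positivity
  nlinarith

end Pool.Agent.Run7.h526.ZR
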